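import Mathlib

open Complex Metric Set Filter Topology

namespace Pool.Agent.X19.OS

/-- `φ` is a (continuous one-parameter) semigroup of holomorphic self-maps of the unit disc. Only
the values `φ t z` with `0 ≤ t` and `‖z‖ < 1` matter. -/
structure IsSemigroup (φ : ℝ → ℂ → ℂ) : Prop where
  mapsTo : ∀ t, 0 ≤ t → MapsTo (φ t) (ball 0 1) (ball 0 1)
  holo : ∀ t, 0 ≤ t → DifferentiableOn ℂ (φ t) (ball 0 1)
  zero : ∀ z ∈ ball (0:ℂ) 1, φ 0 z = z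
  add : ∀ s t, 0 ≤ s → 0 ≤ t → ∀ z ∈ ball (0:ℂ) 1, φ (t + s) z = φ t (φ s z)
  cont : ∀ t₀, 0 ≤ t₀ → TendstoLocallyUniformlyOn φ (φ t₀) (𝓝[Ici 0] t₀) (ball 0 1)

/-- the maps `φ t` have no common fixed point in the disc. -/
def NonElliptic (φ : ℝ → ℂ → ℂ) : Prop := ¬ ∃ z ∈ ball (0:ℂ) 1, ∀ t, 0 ≤ t → φ t z = z

/-- `τ` is the Denjoy-Wolff point of the semigroup: `|τ| = 1` and `φ t z → τ` as `t → ∞` for every
`z` in the disc. -/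
def IsDW (φ : ℝ → ℂ → ℂ) (τ : ℂ) : Prop :=
  ‖τ‖ = 1 ∧ ∀ z ∈ ball (0:ℂ) 1, Tendsto (fun t => φ t z) atTop (𝓝 τ)

/-- the hyperbolic distance of the unit disc. -/
noncomputable def kD (z w : ℂ) : ℝ :=
  (1 / 2) * Real.log ((1 + ‖(z - w) / (1 - (starRingEnd ℂ) w * z)‖) /
    (1 - ‖(z - w) / (1 - (starRingEnd ℂ) w * z)‖))

/-- the diameter `(-1, 1) τ`. -/
def diam (τ : ℂ) : Set ℂ := {w | ∃ r : ℝ, -1 < r ∧ r < 1 ∧ w = r * τ}

/-- `p` is a point of the diameter `(-1, 1) τ` closest to `z` in the hyperbolic distance. -/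
def IsProj (τ z p : ℂ) : Prop := p ∈ diam τ ∧ ∀ q ∈ diam τ, kD z p ≤ kD z q

end Pool.Agent.X19.OS
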