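import Mathlib

open Real

namespace Pool.Agent.X19.OS

lemma sincos_arctan (q : ℝ) (hq : 0 ≤ q) : q / (1 + q ^ 2) ≤ arctan q := by
  have h1 : q / (1 + q ^ 2) = sin (arctan q) * cos (arctan q) := by
    rw [sin_arctan, cos_arctan, div_mul_div_comm, mul_one, Real.mul_self_sqrt (by positivity)]
  have h2 : 0 ≤ arctan q := arctan_nonneg.mpr hq
  have h3 : 0 ≤ sin (arctan q) := by rw [sin_arctan]; positivity
  rw [h1]
  calc sin (arctan q) * cos (arctan q) ≤ sin (arctan q) * 1 :=
        mul_le_mul_of_nonneg_left (cos_le_one _) h3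
    _ ≤ arctan q := by rw [mul_one]; exact sin_le h2

lemma arctan_le (q : ℝ) (hq : 0 ≤ q) : arctan q ≤ q := by
  rcases eq_or_lt_of_le hq with h | h
  · simp [← h]
  · have h2 : 0 < arctan q := arctan_pos.mpr h
    have := (lt_tan h2 (arctan_lt_pi_div_two q)).le
    rwa [tan_arctan] at this

/-- the pointwise inequality, case `y > 0`. -/
lemma point_pos {x y τ : ℝ} (hx : 1 < x) (hy : 0 < y) :
    0 ≤ (x - 1) * ((x ^ 2 + y * (y - τ)) / (x ^ 2 + (y - τ) ^ 2))
      + y * (arctan ((y - τ) / x) - arctan (-τ)) := by
  have hx0 : 0 < x := by linarith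
  rcases le_or_gt y τ with hτ | hτ
  · -- τ ≥ y
    obtain ⟨d, hd⟩ : ∃ d, d = τ - y := ⟨_, rfl⟩
    have hd0 : 0 ≤ d := by linarith
    have hτ0 : 0 < τ := by linarith
    have e1 : arctan ((y - τ) / x) - arctan (-τ) = arctan ((x * τ - d) / (x + d * τ)) := by
      rw [arctan_neg, sub_neg_eq_add, arctan_add]
      · congr 1
        have : y - τ = -d := by linarith
        rw [this]
        have hDD : x + d * τ ≠ 0 := by positivity
        have h2 : x ≠ 0 := hx0.ne'
        rw [div_eq_div_iff _ hDD]
        · field_simp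
          ring
        · have : 0 < 1 - -d / x * τ := by
            have : 0 ≤ d / x * τ := by positivity
            have e : -d / x * τ = -(d / x * τ) := by ring
            linarith
          exact this.ne'
      · have : (y - τ) / x ≤ 0 := div_nonpos_of_nonpos_of_nonneg (by linarith) hx0.le
        nlinarith
    have hN : 0 ≤ x * τ - d := by nlinarith
    have hD : 0 < x + d * τ := by positivity
    have hq : 0 ≤ (x * τ - d) / (x + d * τ) := by positivity
    have h2 := sincos_arctan _ hq
    have e2 : (x * τ - d) / (x + d * τ) / (1 + ((x * τ - d) / (x + d * τ)) ^ 2)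
        = (x * τ - d) * (x + d * τ) / ((x ^ 2 + d ^ 2) * (1 + τ ^ 2)) := by
      have : (x ^ 2 + d ^ 2) * (1 + τ ^ 2) = (x + d * τ) ^ 2 + (x * τ - d) ^ 2 := by ring
      rw [this]
      field_simp
    rw [e1]
    rw [e2] at h2
    have h3 : (x - 1) * ((x ^ 2 + y * (y - τ)) / (x ^ 2 + (y - τ) ^ 2)) +
        y * ((x * τ - d) * (x + d * τ) / ((x ^ 2 + d ^ 2) * (1 + τ ^ 2)))
        = ((x - 1) * (x ^ 2 - y * d) * (1 + τ ^ 2) + y * ((x * τ - d) * (x + d * τ)))
          / ((x ^ 2 + d ^ 2) * (1 + τ ^ 2)) := by
      have e3 : x ^ 2 + y * (y - τ) = x ^ 2 - y * d := by rw [hd]; ring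
      have e4 : x ^ 2 + (y - τ) ^ 2 = x ^ 2 + d ^ 2 := by rw [hd]; ring
      rw [e3, e4]
      have : x ^ 2 + d ^ 2 ≠ 0 := by positivity
      have : 1 + τ ^ 2 ≠ 0 := by positivity
      field_simp
    have h4 : 0 ≤ (x - 1) * (x ^ 2 - y * d) * (1 + τ ^ 2) + y * ((x * τ - d) * (x + d * τ)) := by
      have e5 : (x - 1) * (x ^ 2 - y * d) * (1 + τ ^ 2) + y * ((x * τ - d) * (x + d * τ))
          = (x - 1) * x ^ 2 * (1 + τ ^ 2) + y * (x ^ 2 * (τ - d) + d * (x - 1) ^ 2 + d * τ * y) := by
        have : y = τ - d := by linarith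
        rw [this]; ring
      rw [e5]
      have : τ - d = y := by linarith
      rw [this]
      have : 0 < x - 1 := by linarith
      positivity
    calc (0:ℝ) ≤ ((x - 1) * (x ^ 2 - y * d) * (1 + τ ^ 2) + y * ((x * τ - d) * (x + d * τ)))
          / ((x ^ 2 + d ^ 2) * (1 + τ ^ 2)) := by positivity
      _ = _ := h3.symm
      _ ≤ _ := by gcongr
  · have hB : 0 < (x ^ 2 + y * (y - τ)) / (x ^ 2 + (y - τ) ^ 2) := by
      have : 0 < y - τ := by linarith
      positivity
    rcases le_or_gt 0 (y + τ * (x - 1)) with hN | hN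
    · have hA : 0 ≤ arctan ((y - τ) / x) - arctan (-τ) := by
        rw [sub_nonneg]
        apply arctan_mono
        rw [le_div_iff₀ hx0]
        linarith
      have : 0 < x - 1 := by linarith
      positivity
    · have hτ0 : τ < 0 := by nlinarith
      obtain ⟨s, hs⟩ : ∃ s, s = -τ := ⟨_, rfl⟩
      have hs0 : 0 < s := by linarith
      have e1 : arctan (-τ) - arctan ((y - τ) / x)
          = arctan ((s * x - y - s) / (x + s * (y + s))) := by
        rw [sub_eq_add_neg, ← arctan_neg, arctan_add]
        · congr 1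
          have : y - τ = y + s := by linarith
          rw [this, ← hs]
          have : x + s * (y + s) ≠ 0 := by positivity
          have h2 : x ≠ 0 := hx0.ne'
          rw [div_eq_div_iff _ this]
          · field_simp
            ring
          · have : 0 < 1 - s * -((y + s) / x) := by
              have : 0 < (y + s) / x := by positivity
              nlinarith
            exact this.ne'
        · have : 0 < (y - τ) / x := by
            have : 0 < y - τ := by linarith
            positivity
          nlinarith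
      have hM : 0 ≤ s * x - y - s := by
        have : τ = -s := by linarith
        rw [this] at hN; nlinarith
      have hD : 0 < x + s * (y + s) := by positivity
      have h2 := arctan_le _ (div_nonneg hM hD.le)
      rw [← e1] at h2
      have h3 : y * ((s * x - y - s) / (x + s * (y + s))) ≤
          (x - 1) * ((x ^ 2 + y * (y - τ)) / (x ^ 2 + (y - τ) ^ 2)) := by
        have e3 : y - τ = y + s := by linarith
        rw [e3]
        have h4 : y * ((s * x - y - s) / (x + s * (y + s))) ≤
            (x - 1) * (y * s / (x + s * (y + s))) := by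
          rw [mul_div_assoc', mul_div_assoc', div_le_div_iff_of_pos_right hD]
          nlinarith
        have h5 : y * s / (x + s * (y + s)) ≤
            (x ^ 2 + y * (y + s)) / (x ^ 2 + (y + s) ^ 2) := by
          rw [div_le_div_iff₀ hD (by positivity)]
          have : (x ^ 2 + y * (y + s)) * (x + s * (y + s)) - y * s * (x ^ 2 + (y + s) ^ 2)
              = x ^ 3 + x ^ 2 * s ^ 2 + x * y * (y + s) := by ring
          have h6 : 0 < x ^ 3 + x ^ 2 * s ^ 2 + x * y * (y + s) := by positivity
          linarith
        calc _ ≤ _ := h4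
          _ ≤ _ := by
            have : 0 ≤ x - 1 := by linarith
            gcongr
      nlinarith [mul_le_mul_of_nonneg_left h2 hy.le]

/-- the pointwise inequality. -/
lemma point {x : ℝ} (y τ : ℝ) (hx : 1 < x) :
    0 ≤ (x - 1) * ((x ^ 2 + y * (y - τ)) / (x ^ 2 + (y - τ) ^ 2))
      + y * (arctan ((y - τ) / x) - arctan (-τ)) := by
  rcases lt_trichotomy y 0 with h | h | h
  · have := point_pos (τ := -τ) hx (neg_pos.mpr h)
    have e1 : (-y - -τ) / x = -((y - τ) / x) := by ring
    have e2 : -y * (-y - -τ) = y * (y - τ) := by ring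
    have e3 : (-y - -τ) ^ 2 = (y - τ) ^ 2 := by ring
    rw [e1, e2, e3, neg_neg, arctan_neg] at this
    rw [arctan_neg]
    linarith
  · subst h
    have : 0 < x - 1 := by linarith
    have hx0 : 0 < x := by linarith
    simp only [zero_mul, add_zero, zero_sub]
    positivity
  · exact point_pos hx h

end Pool.Agent.X19.OS
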