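import Mathlib
import Pool.Agent.X19.OS.Point

open Complex Metric Set Filter Topology MeasureTheory intervalIntegral

namespace Pool.Agent.X19.OS

/-- the Cayley map of the unit disc onto the right half-plane. -/
noncomputable def cay (w : ℂ) : ℂ := (1 + w) / (1 - w)

/-- its derivative. -/
noncomputable def cayd (w : ℂ) : ℂ := 2 / (1 - w) ^ 2

lemma one_sub_ne {w : ℂ} (hw : ‖w‖ < 1) : 1 - w ≠ 0 := by
  intro h
  have : w = 1 := by linear_combination -h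
  rw [this] at hw; simp at hw

lemma cay_zero : cay 0 = 1 := by simp [cay]

lemma hasDerivAt_cay {w : ℂ} (hw : ‖w‖ < 1) : HasDerivAt cay (cayd w) w := by
  have h1 : HasDerivAt (fun w : ℂ => 1 + w) 1 w := (hasDerivAt_id w).const_add 1
  have h2 : HasDerivAt (fun w : ℂ => 1 - w) (-1) w := (hasDerivAt_id w).const_sub 1
  refine (h1.div h2 (one_sub_ne hw)).congr_deriv ?_
  unfold cayd
  congr 1
  ring

lemma cay_re (w : ℂ) : (cay w).re = (1 - normSq w) / normSq (1 - w) := by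
  unfold cay
  rw [div_re]
  rw [← add_div]
  congr 1
  simp only [add_re, one_re, sub_re, add_im, one_im, sub_im, normSq_apply]
  ring

lemma normSq_lt_one {w : ℂ} (hw : ‖w‖ < 1) : normSq w < 1 := by
  rw [normSq_eq_norm_sq]; nlinarith [norm_nonneg w]

lemma cay_re_pos {w : ℂ} (hw : ‖w‖ < 1) : 0 < (cay w).re := by
  rw [cay_re]
  have h1 := normSq_lt_one hw
  have h2 : 0 < normSq (1 - w) := normSq_pos.mpr (one_sub_ne hw)
  apply div_pos (by linarith) h2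

lemma contOn_cayd : ContinuousOn cayd (ball 0 1) := by
  unfold cayd
  apply ContinuousOn.div continuousOn_const (by fun_prop)
  intro w hw
  exact pow_ne_zero _ (one_sub_ne (by simpa using hw))

lemma smul_mem {ω : ℂ} (hω : ‖ω‖ < 1) {s : ℝ} (hs : s ∈ Icc (0:ℝ) 1) : ‖(s:ℂ) * ω‖ < 1 := by
  rw [norm_mul, norm_real, Real.norm_of_nonneg hs.1]
  calc s * ‖ω‖ ≤ 1 * ‖ω‖ := by gcongr; exact hs.2
    _ < 1 := by rwa [one_mul]

/-- the path integral of `f * cay'` from `0` to `ω`. -/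
noncomputable def KI (f : ℂ → ℂ) (ω : ℂ) : ℂ :=
  ∫ s in (0:ℝ)..1, f (s * ω) * cayd (s * ω) * ω

lemma contOn_path {f : ℂ → ℂ} (hf : ContinuousOn f (ball 0 1)) {ω : ℂ} (hω : ‖ω‖ < 1) :
    ContinuousOn (fun s : ℝ => f (s * ω) * cayd (s * ω) * ω) (Icc 0 1) := by
  have h1 : ContinuousOn (fun s : ℝ => (s:ℂ) * ω) (Icc 0 1) := by fun_prop
  have h2 : MapsTo (fun s : ℝ => (s:ℂ) * ω) (Icc 0 1) (ball 0 1) := fun s hs => by
    simpa using smul_mem hω hs
  exact ((hf.comp h1 h2).mul (contOn_cayd.comp h1 h2)).mul continuousOn_const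

lemma KI_eq {f F : ℂ → ℂ} (hf : ContinuousOn f (ball 0 1))
    (hF : ∀ w ∈ ball (0:ℂ) 1, HasDerivAt F (f w * cayd w) w) {ω : ℂ} (hω : ‖ω‖ < 1) :
    KI f ω = F ω - F 0 := by
  unfold KI
  have h1 : ∀ s ∈ uIcc (0:ℝ) 1, HasDerivAt (fun s : ℝ => F (s * ω))
      (f (s * ω) * cayd (s * ω) * ω) s := by
    intro s hs
    rw [uIcc_of_le zero_le_one] at hs
    have h2 : HasDerivAt (fun s : ℝ => (s:ℂ) * ω) ω s := by
      simpa using (Complex.ofRealCLM.hasDerivAt (x := s)).mul_const ω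
    have h3 := hF (s * ω) (by simpa using smul_mem hω hs)
    exact HasDerivAt.comp s h3 h2
  rw [integral_eq_sub_of_hasDerivAt h1]
  · simp
  · apply ContinuousOn.intervalIntegrable
    rw [uIcc_of_le zero_le_one]
    exact contOn_path hf hω

/-- the Herglotz kernel. -/
noncomputable def HK (ζ w : ℂ) : ℂ := (ζ + w) / (ζ - w)

lemma sub_ne' {ζ w : ℂ} (hζ : ‖ζ‖ = 1) (hw : ‖w‖ < 1) : ζ - w ≠ 0 := by
  intro h
  have : ζ = w := by linear_combination h
  rw [← this, hζ] at hw; exact lt_irrefl _ hw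

lemma contOn_HK {ζ : ℂ} (hζ : ‖ζ‖ = 1) : ContinuousOn (HK ζ) (ball 0 1) := by
  unfold HK
  apply ContinuousOn.div (by fun_prop) (by fun_prop)
  intro w hw
  exact sub_ne' hζ (by simpa using hw)

lemma exists_tau {ζ : ℂ} (hζ : ‖ζ‖ = 1) (h1 : ζ ≠ 1) : ∃ τ : ℝ, 1 + ζ = I * τ * (1 - ζ) := by
  have h2 : 1 - ζ ≠ 0 := sub_ne_zero.mpr (Ne.symm h1)
  refine ⟨(cay ζ).im, ?_⟩
  have h3 : (cay ζ).re = 0 := by
    rw [cay_re, normSq_eq_norm_sq, hζ]; simp
  have h4 : cay ζ = I * (cay ζ).im := by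
    apply Complex.ext <;> simp [h3]
  rw [← h4]
  unfold cay
  rw [div_mul_cancel₀ _ h2]

lemma sub_tau_re {v : ℂ} (τ : ℝ) : (v - I * τ).re = v.re := by simp

lemma sub_tau_im {v : ℂ} (τ : ℝ) : (v - I * τ).im = v.im - τ := by simp

lemma sub_tau_ne {v : ℂ} (hv : 0 < v.re) (τ : ℝ) : v - I * τ ≠ 0 := by
  intro h
  have := congrArg re h
  rw [sub_tau_re, zero_re] at this
  linarith

lemma HK_eq {ζ w : ℂ} {τ : ℝ} (hζ : ‖ζ‖ = 1) (hw : ‖w‖ < 1) (hτ : 1 + ζ = I * τ * (1 - ζ)) :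
    HK ζ w = -(I * τ) + (1 + τ ^ 2) / (cay w - I * τ) := by
  have h1 := sub_ne' hζ hw
  have h2 := sub_tau_ne (cay_re_pos hw) τ
  have h3 : (1 - w) * cay w = 1 + w := by
    unfold cay; rw [mul_div_cancel₀ _ (one_sub_ne hw)]
  unfold HK
  rw [div_eq_iff h1]
  field_simp
  have hI : I ^ 2 = -1 := I_sq
  linear_combination (I * τ - 1) * h3 + (cay w - 1) * hτ + (ζ - w) * (-(τ:ℂ) ^ 2) * hI

lemma arg_eq {w : ℂ} (h : 0 < w.re) : arg w = Real.arctan (w.im / w.re) := by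
  have h1 : |arg w| < Real.pi / 2 := Complex.abs_arg_lt_pi_div_two_iff.mpr (Or.inl h)
  rw [← Complex.tan_arg, Real.arctan_tan (neg_lt_of_abs_lt h1) (lt_of_abs_lt h1)]

lemma KI_HK {ζ ω : ℂ} {τ : ℝ} (hζ : ‖ζ‖ = 1) (hω : ‖ω‖ < 1) (hτ : 1 + ζ = I * τ * (1 - ζ)) :
    KI (HK ζ) ω = (-(I * τ) * cay ω + (1 + τ ^ 2) * log (cay ω - I * τ))
      - (-(I * τ) * 1 + (1 + τ ^ 2) * log (1 - I * τ)) := by
  have := KI_eq (f := HK ζ) (F := fun w => -(I * τ) * cay w + (1 + τ ^ 2) * log (cay w - I * τ))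
    (contOn_HK hζ) ?_ hω
  · simpa [cay_zero] using this
  · intro w hw
    have hw' : ‖w‖ < 1 := by simpa using hw
    have h1 := hasDerivAt_cay hw'
    have h2 : cay w - I * τ ∈ slitPlane := by
      left; rw [sub_tau_re]; exact cay_re_pos hw'
    have h3 : HasDerivAt (fun w => cay w - I * τ) (cayd w) w := h1.sub_const _
    have h4 := (h1.const_mul (-(I * τ))).add ((h3.clog h2).const_mul ((1:ℂ) + τ ^ 2))
    refine h4.congr_deriv ?_
    rw [HK_eq hζ hw' hτ]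
    ring

lemma KI_HK_one {ω : ℂ} (hω : ‖ω‖ < 1) : KI (HK 1) ω = (cay ω ^ 2 - 1) / 2 := by
  have := KI_eq (f := HK 1) (F := fun w => cay w ^ 2 / 2) (contOn_HK (by simp)) ?_ hω
  · rw [this]; simp only [cay_zero]; ring
  · intro w hw
    have hw' : ‖w‖ < 1 := by simpa using hw
    refine (((hasDerivAt_cay hw').pow 2).div_const 2).congr_deriv ?_
    have : HK 1 w = cay w := rfl
    rw [this]; ring

/-- the functional. -/
noncomputable def LF (f : ℂ → ℂ) (ω : ℂ) : ℝ :=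
  ((cay ω).re - 1) * (cay ω * f ω).re + (cay ω).im * (KI f ω).im

lemma LF_HK_nonneg {ζ ω : ℂ} (hζ : ‖ζ‖ = 1) (hω : ‖ω‖ < 1) (hx : 1 < (cay ω).re) :
    0 ≤ LF (HK ζ) ω := by
  unfold LF
  obtain ⟨x, hxe⟩ : ∃ x, x = (cay ω).re := ⟨_, rfl⟩
  obtain ⟨y, hye⟩ : ∃ y, y = (cay ω).im := ⟨_, rfl⟩
  by_cases h1 : ζ = 1
  · subst h1
    rw [KI_HK_one hω]
    have : HK 1 ω = cay ω := rfl
    rw [this]
    have e1 : (cay ω * cay ω).re = x ^ 2 - y ^ 2 := by rw [mul_re, ← hxe, ← hye]; ring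
    have e2 : ((cay ω ^ 2 - 1) / 2).im = x * y := by
      have : (cay ω ^ 2 - 1) / 2 = ((1/2 : ℝ) : ℂ) * (cay ω * cay ω - 1) := by push_cast; ring
      rw [this, im_ofReal_mul, sub_im, mul_im, one_im, ← hxe, ← hye]
      ring
    rw [e1, e2, ← hxe, ← hye]
    rw [← hxe] at hx
    have : (x - 1) * (x ^ 2 - y ^ 2) + y * (x * y) = (x - 1) * x ^ 2 + y ^ 2 := by ring
    rw [this]
    have : 0 < x - 1 := by linarith
    positivity
  · obtain ⟨τ, hτ⟩ := exists_tau hζ h1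
    rw [KI_HK hζ hω hτ, HK_eq hζ hω hτ]
    have hxp : 0 < x := by rw [← hxe] at hx; linarith
    have hp := point y τ (by rw [← hxe] at hx; exact hx : 1 < x)
    have e1 : (cay ω * (-(I * τ) + (1 + τ ^ 2) / (cay ω - I * τ))).re
        = τ * y + (1 + τ ^ 2) * ((x ^ 2 + y * (y - τ)) / (x ^ 2 + (y - τ) ^ 2)) := by
      have e2 : cay ω * (-(I * τ) + (1 + τ ^ 2) / (cay ω - I * τ))
          = -(I * τ * cay ω) + ((1 + τ ^ 2 : ℝ) : ℂ) * (cay ω / (cay ω - I * τ)) := by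
        push_cast; ring
      rw [e2, add_re, re_ofReal_mul, div_re, sub_tau_re, sub_tau_im, normSq_apply, sub_tau_re,
        sub_tau_im, ← hxe, ← hye]
      have e3 : (-(I * τ * cay ω)).re = τ * y := by
        simp [hye]
      rw [e3]
      congr 1
      rw [← add_div]
      ring
    have e4 : (-(I * τ) * cay ω + (1 + τ ^ 2) * log (cay ω - I * τ)
        - (-(I * τ) * 1 + (1 + τ ^ 2) * log (1 - I * τ))).im
        = -τ * (x - 1) + (1 + τ ^ 2) * (Real.arctan ((y - τ) / x) - Real.arctan (-τ)) := by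
      have e5 : (-(I * τ) * cay ω + (1 + τ ^ 2) * log (cay ω - I * τ)
        - (-(I * τ) * 1 + (1 + τ ^ 2) * log (1 - I * τ)))
        = -(I * τ * (cay ω - 1)) + ((1 + τ ^ 2 : ℝ) : ℂ) * (log (cay ω - I * τ) - log (1 - I * τ)) := by
        push_cast; ring
      rw [e5, add_im, im_ofReal_mul, sub_im, log_im, log_im, arg_eq, arg_eq]
      · rw [sub_tau_re, sub_tau_im, sub_tau_re, sub_tau_im, one_re, one_im, ← hxe, ← hye]
        have e3 : (-(I * τ * (cay ω - 1))).im = -τ * (x - 1) := by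
          simp [hxe]
        rw [e3]
        norm_num
      · rw [sub_tau_re]; simp
      · rw [sub_tau_re, ← hxe]; exact hxp
    rw [e1, e4, ← hxe, ← hye]
    have e6 : (x - 1) * (τ * y + (1 + τ ^ 2) * ((x ^ 2 + y * (y - τ)) / (x ^ 2 + (y - τ) ^ 2)))
        + y * (-τ * (x - 1) + (1 + τ ^ 2) * (Real.arctan ((y - τ) / x) - Real.arctan (-τ)))
        = (1 + τ ^ 2) * ((x - 1) * ((x ^ 2 + y * (y - τ)) / (x ^ 2 + (y - τ) ^ 2))
          + y * (Real.arctan ((y - τ) / x) - Real.arctan (-τ))) := by ring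
    rw [e6]
    positivity

end Pool.Agent.X19.OS
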