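import Mathlib
import Pool.Agent.X19.OS.Kernel

open Complex Metric Set Filter Topology MeasureTheory intervalIntegral

namespace Pool.Agent.X19.OS

lemma LF_int {f : ℂ → ℂ} (hf : ContinuousOn f (ball 0 1)) {ω : ℂ} (hω : ‖ω‖ < 1) :
    LF f ω = ∫ s in (0:ℝ)..1, (((cay ω).re - 1) * (cay ω * f ω).re +
      (cay ω).im * (f (s * ω) * cayd (s * ω) * ω).im) := by
  have hc := contOn_path hf hω
  have hi : IntervalIntegrable (fun s : ℝ => f (s * ω) * cayd (s * ω) * ω) volume 0 1 := by
    apply ContinuousOn.intervalIntegrable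
    rwa [uIcc_of_le zero_le_one]
  have hi2 : IntervalIntegrable (fun s : ℝ => (f (s * ω) * cayd (s * ω) * ω).im) volume 0 1 := by
    apply ContinuousOn.intervalIntegrable
    rw [uIcc_of_le zero_le_one]
    exact Complex.continuous_im.comp_continuousOn hc
  rw [intervalIntegral.integral_add (by simp) (hi2.const_mul _)]
  rw [intervalIntegral.integral_const, intervalIntegral.integral_const_mul]
  have h1 : ∫ s in (0:ℝ)..1, (f (s * ω) * cayd (s * ω) * ω).im = (KI f ω).im := by
    have := Complex.imCLM.intervalIntegral_comp_comm hi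
    simpa [KI] using this
  rw [h1]
  simp [LF]

/-- the Herglotz transform of the real part of `Q`. -/
noncomputable def HT (Q : ℂ → ℂ) (w : ℂ) : ℂ :=
  Real.circleAverage (fun ζ => herglotzRieszKernel 0 w ζ • (((Q ζ).re : ℝ) : ℂ)) 0 1

lemma hk_eq (w ζ : ℂ) : herglotzRieszKernel 0 w ζ = HK ζ w := by
  simp [herglotzRieszKernel_def, HK]

lemma ci_re {Q : ℂ → ℂ} (hQ : ContinuousOn Q (sphere 0 1)) :
    CircleIntegrable (fun ζ => (Q ζ).re) 0 1 := by
  apply ContinuousOn.circleIntegrable zero_le_one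
  exact Complex.continuous_re.comp_continuousOn hQ

lemma ci_re' {Q : ℂ → ℂ} (hQ : ContinuousOn Q (sphere 0 1)) :
    CircleIntegrable (fun ζ => (((Q ζ).re : ℝ) : ℂ)) 0 1 := by
  apply ContinuousOn.circleIntegrable zero_le_one
  exact Complex.continuous_ofReal.comp_continuousOn (Complex.continuous_re.comp_continuousOn hQ)

lemma HT_cont {Q : ℂ → ℂ} (hQ : ContinuousOn Q (sphere 0 1)) :
    AnalyticOnNhd ℂ (HT Q) (ball 0 1) :=
  analyticOnNhd_circleAverage_herglotzRieszKernel_smul (ci_re' hQ)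

lemma re_mul_HT {Q : ℂ → ℂ} (hQ : ContinuousOn Q (sphere 0 1)) (α : ℂ) {w : ℂ}
    (hw : w ∈ ball (0:ℂ) 1) :
    (α * HT Q w).re = Real.circleAverage (fun ζ => (α * HK ζ w).re * (Q ζ).re) 0 1 := by
  have h2 : CircleIntegrable (fun ζ ↦ herglotzRieszKernel 0 w ζ • (((Q ζ).re : ℝ) : ℂ)) 0 1 :=
    (ci_re' hQ).continuousOn_smul (continuousOn_herglotzRieszKernel_sphere hw)
  have h3 := (Complex.reCLM.comp (ContinuousLinearMap.mul ℝ ℂ α)).circleAverage_comp_comm h2
  have h4 : (α * HT Q w).re = (Complex.reCLM.comp (ContinuousLinearMap.mul ℝ ℂ α)) (HT Q w) := by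
    simp
  rw [h4]
  unfold HT
  rw [← h3]
  congr 1
  ext ζ
  simp only [Function.comp_apply, ContinuousLinearMap.comp_apply, ContinuousLinearMap.mul_apply',
    reCLM_apply, smul_eq_mul, hk_eq]
  rw [← mul_assoc, re_mul_ofReal]

lemma HT_re {Q : ℂ → ℂ} (hQ : DiffContOnCl ℂ Q (ball 0 1)) {w : ℂ} (hw : w ∈ ball (0:ℂ) 1) :
    (HT Q w).re = (Q w).re := by
  have hc : ContinuousOn Q (sphere 0 1) := by
    have := hQ.continuousOn
    rw [closure_ball _ one_ne_zero] at this
    exact this.mono sphere_subset_closedBall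
  have h1 := re_mul_HT hc 1 hw
  rw [one_mul] at h1
  rw [h1]
  have h2 := hQ.circleAverage_re_herglotzRieszKernel_smul hw
  have h5 : ContinuousOn (herglotzRieszKernel 0 w) (sphere 0 |1|) :=
    continuousOn_herglotzRieszKernel_sphere hw
  rw [abs_one] at h5
  have h6 : CircleIntegrable ((re ∘ herglotzRieszKernel 0 w) • Q) 0 1 := by
    apply ContinuousOn.circleIntegrable zero_le_one
    exact (Complex.continuous_re.comp_continuousOn h5).smul hc
  have h3 := Complex.reCLM.circleAverage_comp_comm h6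
  rw [h2] at h3
  rw [reCLM_apply] at h3
  rw [← h3]
  congr 1
  ext ζ
  simp [hk_eq]

lemma herg {Q : ℂ → ℂ} (hQ : DiffContOnCl ℂ Q (ball 0 1)) :
    ∃ k : ℂ, k.re = 0 ∧ ∀ w ∈ ball (0:ℂ) 1, Q w = HT Q w + k := by
  have hc : ContinuousOn Q (sphere 0 1) := by
    have := hQ.continuousOn
    rw [closure_ball _ one_ne_zero] at this
    exact this.mono sphere_subset_closedBall
  have ha : AnalyticOnNhd ℂ (fun w => Q w - HT Q w) (ball 0 1) :=
    (hQ.differentiableOn.analyticOnNhd isOpen_ball).sub (HT_cont hc)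
  obtain ⟨k, hk⟩ := ha.eq_const_of_re_eq_const (c₀ := 0) (fun w hw => by
    rw [sub_re, HT_re hQ hw, sub_self]) isOpen_ball (isConnected_ball one_pos)
  refine ⟨k, ?_, fun w hw => by rw [← hk w hw]; ring⟩
  have h0 : (0:ℂ) ∈ ball (0:ℂ) 1 := mem_ball_self one_pos
  rw [← hk 0 h0, sub_re, HT_re hQ h0, sub_self]

lemma LF_const {ω : ℂ} (hω : ‖ω‖ < 1) {k : ℂ} (hk : k.re = 0) : LF (fun _ => k) ω = 0 := by
  have h1 : KI (fun _ => k) ω = k * cay ω - k * cay 0 := by
    apply KI_eq (F := fun w => k * cay w) continuousOn_const _ hω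
    intro w hw
    exact (hasDerivAt_cay (by simpa using hw)).const_mul k
  unfold LF
  rw [h1, cay_zero, mul_re, sub_im, mul_im, mul_im, hk, one_im, one_re]
  ring

lemma LF_add {f g : ℂ → ℂ} (hf : ContinuousOn f (ball 0 1)) (hg : ContinuousOn g (ball 0 1))
    {ω : ℂ} (hω : ‖ω‖ < 1) : LF (fun w => f w + g w) ω = LF f ω + LF g ω := by
  have h1 : KI (fun w => f w + g w) ω = KI f ω + KI g ω := by
    unfold KI
    rw [← intervalIntegral.integral_add]
    · congr 1; ext s; ring
    · apply ContinuousOn.intervalIntegrable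
      rw [uIcc_of_le zero_le_one]; exact contOn_path hf hω
    · apply ContinuousOn.intervalIntegrable
      rw [uIcc_of_le zero_le_one]; exact contOn_path hg hω
  unfold LF
  rw [h1, mul_add, add_re, add_im]
  ring

lemma LF_congr {f g : ℂ → ℂ} (h : EqOn f g (ball 0 1)) {ω : ℂ} (hω : ‖ω‖ < 1) :
    LF f ω = LF g ω := by
  have h1 : KI f ω = KI g ω := by
    unfold KI
    apply intervalIntegral.integral_congr
    intro s hs
    rw [uIcc_of_le zero_le_one] at hs
    have : f (s * ω) = g (s * ω) := h (by simpa using smul_mem hω hs)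
    simp only [this]
  unfold LF
  rw [h1, h (show ω ∈ ball (0:ℂ) 1 by simpa using hω)]

lemma LF_HT_nonneg {Q : ℂ → ℂ} (hQ : ContinuousOn Q (sphere 0 1))
    (hpos : ∀ ζ ∈ sphere (0:ℂ) 1, 0 ≤ (Q ζ).re) {ω : ℂ} (hω : ‖ω‖ < 1) (hx : 1 < (cay ω).re) :
    0 ≤ LF (HT Q) ω := by
  rw [LF_int (HT_cont hQ).continuousOn hω]
  have hωb : ω ∈ ball (0:ℂ) 1 := by simpa using hω
  have hcm : ∀ θ : ℝ, ‖circleMap 0 1 θ‖ = 1 := fun θ => by simp
  set F : ℝ → ℝ → ℝ := fun s θ => (((cay ω).re - 1) * (cay ω * HK (circleMap 0 1 θ) ω).re +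
      (cay ω).im * (HK (circleMap 0 1 θ) (s * ω) * cayd (s * ω) * ω).im)
      * (Q (circleMap 0 1 θ)).re with hF
  have hQθ : Continuous (fun θ : ℝ => Q (circleMap 0 1 θ)) := by
    rw [← continuousOn_univ]
    exact hQ.comp (continuous_circleMap 0 1).continuousOn (fun θ _ => by simp)
  have hFc : ContinuousOn (Function.uncurry F) (Icc 0 1 ×ˢ Icc 0 (2 * Real.pi)) := by
    have hc1 : ContinuousOn (fun p : ℝ × ℝ => circleMap 0 1 p.2) (Icc 0 1 ×ˢ Icc 0 (2 * Real.pi)) :=
      ((continuous_circleMap 0 1).comp continuous_snd).continuousOn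
    have hc2 : ContinuousOn (fun p : ℝ × ℝ => ((p.1 : ℂ) * ω)) (Icc 0 1 ×ˢ Icc 0 (2 * Real.pi)) := by
      fun_prop
    have hc3 : ContinuousOn (fun p : ℝ × ℝ => cayd (p.1 * ω)) (Icc 0 1 ×ˢ Icc 0 (2 * Real.pi)) :=
      contOn_cayd.comp hc2 (fun p hp => by simpa using smul_mem hω hp.1)
    have hc4 : ContinuousOn (fun p : ℝ × ℝ => HK (circleMap 0 1 p.2) (p.1 * ω))
        (Icc 0 1 ×ˢ Icc 0 (2 * Real.pi)) := by
      unfold HK
      exact (hc1.add hc2).div (hc1.sub hc2) (fun p hp => sub_ne' (hcm _) (smul_mem hω hp.1))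
    have hc5 : ContinuousOn (fun p : ℝ × ℝ => HK (circleMap 0 1 p.2) ω)
        (Icc 0 1 ×ˢ Icc 0 (2 * Real.pi)) := by
      unfold HK
      exact (hc1.add continuousOn_const).div (hc1.sub continuousOn_const)
        (fun p hp => sub_ne' (hcm _) hω)
    have hc6 : ContinuousOn (fun p : ℝ × ℝ => (Q (circleMap 0 1 p.2)).re)
        (Icc 0 1 ×ˢ Icc 0 (2 * Real.pi)) :=
      (Complex.continuous_re.comp (hQθ.comp continuous_snd)).continuousOn
    refine ContinuousOn.mul (ContinuousOn.add ?_ ?_) hc6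
    · exact continuousOn_const.mul (Complex.continuous_re.comp_continuousOn
        (continuousOn_const.mul hc5))
    · exact continuousOn_const.mul (Complex.continuous_im.comp_continuousOn
        ((hc4.mul hc3).mul continuousOn_const))
  have key : ∀ s ∈ uIcc (0:ℝ) 1, (((cay ω).re - 1) * (cay ω * HT Q ω).re +
      (cay ω).im * (HT Q (s * ω) * cayd (s * ω) * ω).im)
      = (2 * Real.pi)⁻¹ * ∫ θ in (0:ℝ)..2 * Real.pi, F s θ := by
    intro s hs
    rw [uIcc_of_le zero_le_one] at hs
    have hsb : (s:ℂ) * ω ∈ ball (0:ℂ) 1 := by simpa using smul_mem hω hs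
    have e1 : (HT Q (s * ω) * cayd (s * ω) * ω).im = ((-I * (cayd (s * ω) * ω)) * HT Q (s * ω)).re := by
      have : (-I * (cayd (s * ω) * ω)) * HT Q (s * ω) = -I * (HT Q (s * ω) * cayd (s * ω) * ω) := by
        ring
      rw [this]; simp
    rw [e1, re_mul_HT hQ _ hωb, re_mul_HT hQ _ hsb]
    simp only [Real.circleAverage_def, smul_eq_mul]
    have hi1 : IntervalIntegrable (fun θ : ℝ => (cay ω * HK (circleMap 0 1 θ) ω).re *
        (Q (circleMap 0 1 θ)).re) volume 0 (2 * Real.pi) := by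
      apply Continuous.intervalIntegrable
      refine Continuous.mul ?_ (Complex.continuous_re.comp hQθ)
      refine Complex.continuous_re.comp (continuous_const.mul ?_)
      unfold HK
      exact ((continuous_circleMap 0 1).add continuous_const).div
        ((continuous_circleMap 0 1).sub continuous_const) (fun θ => sub_ne' (hcm _) hω)
    have hi2 : IntervalIntegrable (fun θ : ℝ => ((-I * (cayd (s * ω) * ω)) *
        HK (circleMap 0 1 θ) (s * ω)).re *
        (Q (circleMap 0 1 θ)).re) volume 0 (2 * Real.pi) := by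
      apply Continuous.intervalIntegrable
      refine Continuous.mul ?_ (Complex.continuous_re.comp hQθ)
      refine Complex.continuous_re.comp (continuous_const.mul ?_)
      unfold HK
      exact ((continuous_circleMap 0 1).add continuous_const).div
        ((continuous_circleMap 0 1).sub continuous_const) (fun θ => sub_ne' (hcm _)
          (smul_mem hω hs))
    rw [← mul_left_comm, ← mul_left_comm ((2 * Real.pi)⁻¹), ← mul_add,
      ← intervalIntegral.integral_const_mul, ← intervalIntegral.integral_const_mul,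
      ← intervalIntegral.integral_add (hi1.const_mul _) (hi2.const_mul _)]
    congr 2
    ext θ
    rw [hF]
    have e2 : (HK (circleMap 0 1 θ) (s * ω) * cayd (s * ω) * ω).im
        = ((-I * (cayd (s * ω) * ω)) * HK (circleMap 0 1 θ) (s * ω)).re := by
      have : (-I * (cayd (s * ω) * ω)) * HK (circleMap 0 1 θ) (s * ω)
          = -I * (HK (circleMap 0 1 θ) (s * ω) * cayd (s * ω) * ω) := by ring
      rw [this]; simp
    simp only [e2]
    ring
  rw [intervalIntegral.integral_congr key, intervalIntegral.integral_const_mul]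
  refine mul_nonneg (by positivity) ?_
  rw [intervalIntegral_intervalIntegral_swap]
  · apply intervalIntegral.integral_nonneg (by positivity)
    intro θ _
    have hζ := hcm θ
    have h1 : ∫ s in (0:ℝ)..1, F s θ = LF (HK (circleMap 0 1 θ)) ω * (Q (circleMap 0 1 θ)).re := by
      rw [LF_int (contOn_HK hζ) hω, hF, intervalIntegral.integral_mul_const]
    rw [h1]
    exact mul_nonneg (LF_HK_nonneg hζ hω hx) (hpos _ (by simp))
  · have : IntegrableOn (Function.uncurry F) (Icc 0 1 ×ˢ Icc 0 (2 * Real.pi)) :=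
      hFc.integrableOn_compact (isCompact_Icc.prod isCompact_Icc)
    apply this.mono_set
    rw [uIoc_of_le zero_le_one, uIoc_of_le (by positivity)]
    exact prod_mono Ioc_subset_Icc_self Ioc_subset_Icc_self

lemma LF_nonneg_cl {Q : ℂ → ℂ} (hQ : DiffContOnCl ℂ Q (ball 0 1))
    (hpos : ∀ ζ ∈ sphere (0:ℂ) 1, 0 ≤ (Q ζ).re) {ω : ℂ} (hω : ‖ω‖ < 1) (hx : 1 < (cay ω).re) :
    0 ≤ LF Q ω := by
  have hc : ContinuousOn Q (sphere 0 1) := by
    have := hQ.continuousOn
    rw [closure_ball _ one_ne_zero] at this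
    exact this.mono sphere_subset_closedBall
  obtain ⟨k, hk, hQk⟩ := herg hQ
  rw [LF_congr (fun w hw => hQk w hw) hω, LF_add (HT_cont hc).continuousOn continuousOn_const hω,
    LF_const hω hk, add_zero]
  exact LF_HT_nonneg hc hpos hω hx

end Pool.Agent.X19.OS
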