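import Mathlib
import Pool.Agent.X19.OS.Herg

open Complex Metric Set Filter Topology MeasureTheory intervalIntegral

namespace Pool.Agent.X19.OS

lemma LF_nonneg {P : ℂ → ℂ} (hP : DifferentiableOn ℂ P (ball 0 1))
    (hpos : ∀ w ∈ ball (0:ℂ) 1, 0 ≤ (P w).re) {ω : ℂ} (hω : ‖ω‖ < 1) (hx : 1 < (cay ω).re) :
    0 ≤ LF P ω := by
  have hR : ∀ᶠ R : ℝ in 𝓝[<] 1, R ∈ Ioo (0:ℝ) 1 := Ioo_mem_nhdsLT one_pos
  have hmem : ∀ R ∈ Ioo (0:ℝ) 1, ∀ w ∈ closedBall (0:ℂ) 1, (R:ℂ) * w ∈ ball (0:ℂ) 1 := by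
    intro R hR w hw
    rw [mem_ball_zero_iff, norm_mul, norm_real, Real.norm_of_nonneg hR.1.le]
    rw [mem_closedBall_zero_iff] at hw
    nlinarith [hR.1, hR.2, norm_nonneg w]
  have hnn : ∀ᶠ R : ℝ in 𝓝[<] 1, 0 ≤ LF (fun w => P (R * w)) ω := by
    filter_upwards [hR] with R hR
    apply LF_nonneg_cl _ _ hω hx
    · apply DifferentiableOn.diffContOnCl
      rw [closure_ball _ one_ne_zero]
      exact hP.comp (by fun_prop) (fun w hw => hmem R hR w hw)
    · intro ζ hζ
      exact hpos _ (hmem R hR ζ (sphere_subset_closedBall hζ))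
  have hKc : IsCompact (closedBall (0:ℂ) ‖ω‖) := isCompact_closedBall _ _
  have hKs : closedBall (0:ℂ) ‖ω‖ ⊆ ball 0 1 := closedBall_subset_ball hω
  obtain ⟨M, hM⟩ := hKc.exists_bound_of_continuousOn (hP.continuousOn.mono hKs)
  obtain ⟨C, hC⟩ := hKc.exists_bound_of_continuousOn (contOn_cayd.mono hKs)
  have hsω : ∀ s ∈ Icc (0:ℝ) 1, (s:ℂ) * ω ∈ closedBall (0:ℂ) ‖ω‖ := by
    intro s hs
    rw [mem_closedBall_zero_iff, norm_mul, norm_real, Real.norm_of_nonneg hs.1]
    nlinarith [hs.2, norm_nonneg ω]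
  have hRs : ∀ R ∈ Ioo (0:ℝ) 1, ∀ w ∈ closedBall (0:ℂ) ‖ω‖, (R:ℂ) * w ∈ closedBall (0:ℂ) ‖ω‖ := by
    intro R hR w hw
    rw [mem_closedBall_zero_iff, norm_mul, norm_real, Real.norm_of_nonneg hR.1.le]
    rw [mem_closedBall_zero_iff] at hw
    nlinarith [hR.1, hR.2, norm_nonneg w]
  have hpt : ∀ w ∈ ball (0:ℂ) 1, Tendsto (fun R : ℝ => P (R * w)) (𝓝[<] 1) (𝓝 (P w)) := by
    intro w hw
    have h1 : ContinuousAt P w := (hP.differentiableAt (isOpen_ball.mem_nhds hw)).continuousAt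
    have h2 : Tendsto (fun R : ℝ => (R:ℂ) * w) (𝓝[<] 1) (𝓝 w) := by
      have : Continuous (fun R : ℝ => (R:ℂ) * w) := by fun_prop
      have h3 := this.tendsto 1
      simp only [ofReal_one, one_mul] at h3
      exact h3.mono_left nhdsWithin_le_nhds
    exact h1.tendsto.comp h2
  have hKI : Tendsto (fun R : ℝ => KI (fun w => P (R * w)) ω) (𝓝[<] 1) (𝓝 (KI P ω)) := by
    unfold KI
    apply intervalIntegral.tendsto_integral_filter_of_dominated_convergence (fun _ => M * C * ‖ω‖)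
    · filter_upwards [hR] with R hR
      rw [uIoc_of_le zero_le_one]
      apply ContinuousOn.aestronglyMeasurable _ measurableSet_Ioc
      have hc : ContinuousOn (fun w => P (R * w)) (ball 0 1) :=
        hP.continuousOn.comp (by fun_prop) (fun w hw => hmem R hR w (ball_subset_closedBall hw))
      exact (contOn_path hc hω).mono Ioc_subset_Icc_self
    · filter_upwards [hR] with R hR
      filter_upwards with s hs
      rw [uIoc_of_le zero_le_one] at hs
      have hs' := hsω s (Ioc_subset_Icc_self hs)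
      rw [norm_mul, norm_mul]
      have h1 := hM _ (hRs R hR _ hs')
      have h2 := hC _ hs'
      have h3 : 0 ≤ M := (norm_nonneg _).trans h1
      gcongr
    · simp
    · filter_upwards with s hs
      rw [uIoc_of_le zero_le_one] at hs
      exact ((hpt _ (hKs (hsω s (Ioc_subset_Icc_self hs)))).mul_const _).mul_const _
  have hLF : Tendsto (fun R : ℝ => LF (fun w => P (R * w)) ω) (𝓝[<] 1) (𝓝 (LF P ω)) := by
    unfold LF
    refine Tendsto.add (Tendsto.const_mul _ ?_) (Tendsto.const_mul _ ?_)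
    · exact (Complex.continuous_re.tendsto _).comp ((hpt ω (by simpa using hω)).const_mul _)
    · exact (Complex.continuous_im.tendsto _).comp hKI
  exact ge_of_tendsto hLF hnn

end Pool.Agent.X19.OS
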