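import Mathlib
import Pool.Agent.H5R3.Pick
import Pool.Agent.X19.OS.Defs

open Complex Metric Set Filter Topology ComplexConjugate
open Pool.Agent.H5R3 (T norm_T_lt T_neg_T differentiableAt_T normSq_identity)

namespace Pool.Agent.X19.OS

/-- Schwarz-Pick. -/
lemma pick2 {f : ℂ → ℂ} (hd : DifferentiableOn ℂ f (ball 0 1)) (hm : MapsTo f (ball 0 1) (ball 0 1))
    {a w : ℂ} (ha : ‖a‖ < 1) (hw : ‖w‖ < 1) : ‖T (f a) (f w)‖ ≤ ‖T a w‖ := by
  have hna : ‖-a‖ < 1 := by simpa using ha
  have hfa : ‖f a‖ < 1 := by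
    have := hm (mem_ball_zero_iff.mpr ha); rwa [mem_ball_zero_iff] at this
  have hmaps : MapsTo (fun z => T (f a) (f (T (-a) z))) (ball 0 1) (ball 0 1) := by
    intro z hz
    rw [mem_ball_zero_iff] at hz ⊢
    have h1 : ‖T (-a) z‖ < 1 := norm_T_lt hna hz
    have h2 := hm (mem_ball_zero_iff.mpr h1)
    exact norm_T_lt hfa (mem_ball_zero_iff.mp h2)
  have hdiff : DifferentiableOn ℂ (fun z => T (f a) (f (T (-a) z))) (ball 0 1) := by
    intro z hz
    rw [mem_ball_zero_iff] at hz
    have h1 : ‖T (-a) z‖ < 1 := norm_T_lt hna hz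
    have h2 := mem_ball_zero_iff.mp (hm (mem_ball_zero_iff.mpr h1))
    have h3 : DifferentiableAt ℂ f (T (-a) z) :=
      hd.differentiableAt (isOpen_ball.mem_nhds (mem_ball_zero_iff.mpr h1))
    exact ((differentiableAt_T hfa h2).comp z (h3.comp z
      (differentiableAt_T hna hz))).differentiableWithinAt
  have h0 : (fun z => T (f a) (f (T (-a) z))) 0 = 0 := by
    have h1 : T (-a) 0 = a := by simp [T]
    simp only [h1]
    simp [T]
  have h1 := norm_le_norm_of_mapsTo_ball (z := T a w) hdiff
    (hmaps.mono_right ball_subset_closedBall) h0 (norm_T_lt ha hw)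
  simpa only [T_neg_T ha hw] using h1

lemma pick3 {f : ℂ → ℂ} (hd : DifferentiableOn ℂ f (ball 0 1)) (hm : MapsTo f (ball 0 1) (ball 0 1))
    {a w : ℂ} (ha : ‖a‖ < 1) (hw : ‖w‖ < 1) :
    (1 - normSq a) * (1 - normSq w) * normSq (1 - conj (f a) * f w) ≤
      (1 - normSq (f a)) * (1 - normSq (f w)) * normSq (1 - conj a * w) := by
  have hfa : ‖f a‖ < 1 := by
    have := hm (mem_ball_zero_iff.mpr ha); rwa [mem_ball_zero_iff] at this
  have hfw : ‖f w‖ < 1 := by
    have := hm (mem_ball_zero_iff.mpr hw); rwa [mem_ball_zero_iff] at this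
  have h1 := pick2 hd hm ha hw
  have h2 := Pool.Agent.H5R3.one_sub_ne ha hw
  have h3 := Pool.Agent.H5R3.one_sub_ne hfa hfw
  have p2 : 0 < normSq (1 - conj a * w) := normSq_pos.mpr h2
  have p3 : 0 < normSq (1 - conj (f a) * f w) := normSq_pos.mpr h3
  have h4 : normSq (T (f a) (f w)) ≤ normSq (T a w) := by
    rw [normSq_eq_norm_sq, normSq_eq_norm_sq]
    gcongr
  unfold T at h4
  rw [map_div₀, map_div₀, div_le_div_iff₀ p3 p2] at h4
  have i1 := normSq_identity a w
  have i2 := normSq_identity (f a) (f w)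
  nlinarith

/-- Julia's inequality for the semigroup at the Denjoy-Wolff point `1`. -/
lemma julia {φ : ℝ → ℂ → ℂ} (h : IsSemigroup φ)
    (hτ : ∀ z ∈ ball (0:ℂ) 1, Tendsto (fun t => φ t z) atTop (𝓝 1)) {s : ℝ} (hs : 0 ≤ s)
    {z : ℂ} (hz : z ∈ ball (0:ℂ) 1) :
    (1 - normSq z) * normSq (1 - φ s z) ≤ (1 - normSq (φ s z)) * normSq (1 - z) := by
  rcases eq_or_lt_of_le hs with h0 | hs0
  · rw [← h0, h.zero z hz]
  have h0b : (0:ℂ) ∈ ball (0:ℂ) 1 := mem_ball_self one_pos
  have hw := hτ 0 h0b
  set a : ℝ → ℝ := fun t => 1 - normSq (φ t 0) with ha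
  have hapos : ∀ t, 0 ≤ t → 0 < a t := by
    intro t ht
    have := h.mapsTo t ht h0b
    rw [mem_ball_zero_iff] at this
    have h2 : normSq (φ t 0) < 1 := by
      rw [normSq_eq_norm_sq]; nlinarith [norm_nonneg (φ t 0)]
    simp only [ha]; linarith
  have halim : Tendsto a atTop (𝓝 0) := by
    have := (continuous_normSq.tendsto (1:ℂ)).comp hw
    have h2 := this.const_sub 1
    simpa using h2
  have hfreq : ∃ᶠ t in atTop, 0 ≤ t ∧ a (t + s) ≤ a t := by
    rw [Filter.Frequently]
    intro hev
    rw [eventually_atTop] at hev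
    obtain ⟨T0, hT0⟩ := hev
    set t0 := max T0 0 with ht0
    have hstep : ∀ n : ℕ, a t0 ≤ a (t0 + n * s) := by
      intro n
      induction n with
      | zero => simp
      | succ n ih =>
        have hge : T0 ≤ t0 + n * s := by
          have : 0 ≤ n * s := by positivity
          linarith [le_max_left T0 0]
        have hge0 : 0 ≤ t0 + n * s := by
          have : 0 ≤ n * s := by positivity
          linarith [le_max_right T0 0]
        have h2 := hT0 _ hge
        have h3 : a (t0 + n * s) < a (t0 + n * s + s) := by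
          by_contra hcon
          exact h2 ⟨hge0, not_lt.mp hcon⟩
        have e : t0 + ((n + 1 : ℕ) : ℝ) * s = t0 + n * s + s := by push_cast; ring
        rw [e]; linarith
    have hlim : Tendsto (fun n : ℕ => a (t0 + n * s)) atTop (𝓝 0) := by
      apply halim.comp
      apply tendsto_atTop_add_const_left
      exact (tendsto_natCast_atTop_atTop).atTop_mul_const hs0
    have h4 := ge_of_tendsto' hlim hstep
    have h5 := hapos t0 (le_max_right _ _)
    linarith
  have hz' : ‖z‖ < 1 := by simpa using hz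
  set f := φ s with hf
  have hfz : ‖f z‖ < 1 := by
    have := h.mapsTo s hs hz; rwa [mem_ball_zero_iff] at this
  have hzq : 0 < 1 - normSq z := by
    have : normSq z < 1 := by rw [normSq_eq_norm_sq]; nlinarith [norm_nonneg z]
    linarith
  have hfq : 0 < 1 - normSq (f z) := by
    have : normSq (f z) < 1 := by rw [normSq_eq_norm_sq]; nlinarith [norm_nonneg (f z)]
    linarith
  have hfreq2 : ∃ᶠ t in atTop, (1 - normSq z) * normSq (1 - conj (φ (t + s) 0) * f z) ≤
      (1 - normSq (f z)) * normSq (1 - conj (φ t 0) * z) := by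
    refine hfreq.mono ?_
    rintro t ⟨ht, hle⟩
    have htb := h.mapsTo t ht h0b
    rw [mem_ball_zero_iff] at htb
    have h1 := pick3 (h.holo s hs) (h.mapsTo s hs) htb hz'
    have e1 : φ s (φ t 0) = φ (t + s) 0 := by
      rw [add_comm, h.add t s ht hs 0 h0b]
    rw [← hf] at h1
    rw [show f (φ t 0) = φ (t + s) 0 from e1] at h1
    have pa := hapos t ht
    have pb := hapos (t + s) (by linarith)
    have h2 : a t * ((1 - normSq z) * normSq (1 - conj (φ (t + s) 0) * f z)) ≤
        a t * ((1 - normSq (f z)) * normSq (1 - conj (φ t 0) * z)) := by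
      calc a t * ((1 - normSq z) * normSq (1 - conj (φ (t + s) 0) * f z))
          ≤ a (t + s) * ((1 - normSq (f z)) * normSq (1 - conj (φ t 0) * z)) := by
            simp only [ha]; linarith
        _ ≤ _ := by
            apply mul_le_mul_of_nonneg_right hle
            exact mul_nonneg hfq.le (normSq_nonneg _)
    exact le_of_mul_le_mul_left h2 pa
  have hw2 : Tendsto (fun t => φ (t + s) 0) atTop (𝓝 1) :=
    hw.comp (tendsto_atTop_add_const_right _ s tendsto_id)
  have l1 : Tendsto (fun t => (1 - normSq z) * normSq (1 - conj (φ (t + s) 0) * f z)) atTop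
      (𝓝 ((1 - normSq z) * normSq (1 - f z))) := by
    have hc : Continuous (fun w : ℂ => (1 - normSq z) * normSq (1 - conj w * f z)) := by
      have := continuous_normSq
      fun_prop
    have := (hc.tendsto 1).comp hw2
    simpa [Function.comp_def] using this
  have l2 : Tendsto (fun t => (1 - normSq (f z)) * normSq (1 - conj (φ t 0) * z)) atTop
      (𝓝 ((1 - normSq (f z)) * normSq (1 - z))) := by
    have hc : Continuous (fun w : ℂ => (1 - normSq (f z)) * normSq (1 - conj w * z)) := by
      have := continuous_normSq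
      fun_prop
    have := (hc.tendsto 1).comp hw
    simpa [Function.comp_def] using this
  by_contra hcon
  push Not at hcon
  have hev := l2.eventually_lt l1 hcon
  exact hfreq2 (hev.mono fun t ht => not_le.mpr ht)

end Pool.Agent.X19.OS
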