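import Mathlib
import Pool.Agent.X19.OS.Defs

open Complex Metric Set Filter Topology MeasureTheory intervalIntegral

namespace Pool.Agent.X19.OS

variable {φ : ℝ → ℂ → ℂ}

lemma sg_cont (h : IsSemigroup φ) {z : ℂ} (hz : z ∈ ball (0:ℂ) 1) :
    ContinuousOn (fun t => φ t z) (Ici 0) := fun t ht => (h.cont t ht).tendsto_at hz

lemma sg_cont_deriv (h : IsSemigroup φ) {z : ℂ} (hz : z ∈ ball (0:ℂ) 1) :
    ContinuousOn (fun t => deriv (φ t) z) (Ici 0) := fun t ht => by
  have h1 : ∀ᶠ s in 𝓝[Ici 0] t, DifferentiableOn ℂ (φ s) (ball 0 1) := by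
    filter_upwards [self_mem_nhdsWithin] with s hs using h.holo s hs
  exact ((h.cont t ht).deriv h1 isOpen_ball).tendsto_at hz

/-- the averaged map. -/
noncomputable def J (φ : ℝ → ℂ → ℂ) (ε : ℝ) (w : ℂ) : ℂ := ∫ s in (0:ℝ)..ε, φ s w

lemma J_hasDeriv (h : IsSemigroup φ) {ε : ℝ} (hε : 0 < ε) {w : ℂ} (hw : w ∈ ball (0:ℂ) 1) :
    HasDerivAt (J φ ε) (∫ s in (0:ℝ)..ε, deriv (φ s) w) w := by
  have hw' : ‖w‖ < 1 := by simpa using hw
  set r := (1 - ‖w‖) / 2 with hr
  have hr0 : 0 < r := by rw [hr]; linarith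
  have hball : ∀ x ∈ ball w r, closedBall x r ⊆ ball (0:ℂ) 1 := by
    intro x hx y hy
    rw [mem_ball, dist_eq_norm] at hx
    rw [mem_closedBall, dist_eq_norm] at hy
    rw [mem_ball_zero_iff]
    have h1 : ‖y‖ ≤ ‖y - x‖ + ‖x - w‖ + ‖w‖ := by
      have : y = (y - x) + (x - w) + w := by ring
      calc ‖y‖ = ‖(y - x) + (x - w) + w‖ := by rw [← this]
        _ ≤ _ := norm_add₃_le
    rw [hr] at hx hy
    linarith
  have hsub : Icc (0:ℝ) ε ⊆ Ici 0 := fun s hs => hs.1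
  have key := intervalIntegral.hasDerivAt_integral_of_dominated_loc_of_deriv_le (μ := volume)
    (F := fun x s => φ s x) (F' := fun x s => deriv (φ s) x) (x₀ := w) (s := ball w r)
    (a := 0) (b := ε) (bound := fun _ => 1 / r) (ball_mem_nhds w hr0) ?_ ?_ ?_ ?_ ?_ ?_
  · exact key.2
  · filter_upwards [isOpen_ball.mem_nhds hw] with x hx
    rw [uIoc_of_le hε.le]
    exact (((sg_cont h hx).mono hsub).mono Ioc_subset_Icc_self).aestronglyMeasurable
      measurableSet_Ioc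
  · apply ContinuousOn.intervalIntegrable
    rw [uIcc_of_le hε.le]
    exact (sg_cont h hw).mono hsub
  · rw [uIoc_of_le hε.le]
    exact (((sg_cont_deriv h hw).mono hsub).mono Ioc_subset_Icc_self).aestronglyMeasurable
      measurableSet_Ioc
  · filter_upwards with s hs x hx
    rw [uIoc_of_le hε.le] at hs
    apply Complex.norm_deriv_le_of_forall_mem_sphere_norm_le hr0
    · apply DifferentiableOn.diffContOnCl
      exact (h.holo s hs.1.le).mono (closure_ball_subset_closedBall.trans (hball x hx))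
    · intro y hy
      have := h.mapsTo s hs.1.le (hball x hx (sphere_subset_closedBall hy))
      rw [mem_ball_zero_iff] at this
      exact this.le
  · simp
  · filter_upwards with s hs x hx
    rw [uIoc_of_le hε.le] at hs
    have hx1 : x ∈ ball (0:ℂ) 1 := hball x hx (mem_closedBall_self hr0.le)
    exact ((h.holo s hs.1.le).differentiableAt (isOpen_ball.mem_nhds hx1)).hasDerivAt

lemma J_diff (h : IsSemigroup φ) {ε : ℝ} (hε : 0 < ε) : DifferentiableOn ℂ (J φ ε) (ball 0 1) :=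
  fun _ hw => (J_hasDeriv h hε hw).differentiableAt.differentiableWithinAt

lemma exists_eps (h : IsSemigroup φ) {z : ℂ} (hz : z ∈ ball (0:ℂ) 1) :
    ∃ ε > 0, deriv (J φ ε) z ≠ 0 := by
  have h0 : deriv (φ 0) z = 1 := by
    have : φ 0 =ᶠ[𝓝 z] id := by
      filter_upwards [isOpen_ball.mem_nhds hz] with x hx using h.zero x hx
    rw [this.deriv_eq, deriv_id]
  have h1 := sg_cont_deriv h hz 0 (Set.mem_Ici.mpr le_rfl)
  rw [ContinuousWithinAt, h0] at h1
  have h2 : ∀ᶠ s in 𝓝[Ici 0] (0:ℝ), ‖deriv (φ s) z - 1‖ < 1 / 2 := by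
    have := h1.sub_const 1
    rw [sub_self] at this
    have h3 := this.norm
    rw [norm_zero] at h3
    exact h3.eventually (gt_mem_nhds (by norm_num))
  rw [eventually_nhdsWithin_iff, Metric.eventually_nhds_iff] at h2
  obtain ⟨δ, hδ, h3⟩ := h2
  refine ⟨δ / 2, by positivity, ?_⟩
  have hε : 0 < δ / 2 := by positivity
  rw [(J_hasDeriv h hε hz).deriv]
  intro h4
  have hint : IntervalIntegrable (fun s => deriv (φ s) z) volume 0 (δ / 2) := by
    apply ContinuousOn.intervalIntegrable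
    rw [uIcc_of_le hε.le]
    exact (sg_cont_deriv h hz).mono fun s hs => hs.1
  have h5 : ∫ s in (0:ℝ)..δ / 2, (deriv (φ s) z - 1) = -((δ / 2 : ℝ) : ℂ) := by
    rw [intervalIntegral.integral_sub hint (by simp), h4]
    simp
  have h6 : ‖∫ s in (0:ℝ)..δ / 2, (deriv (φ s) z - 1)‖ ≤ 1 / 2 * |δ / 2 - 0| := by
    apply intervalIntegral.norm_integral_le_of_norm_le_const
    intro s hs
    rw [uIoc_of_le hε.le] at hs
    refine (h3 (y := s) ?_ hs.1.le).le
    rw [Real.dist_eq, sub_zero, abs_of_pos hs.1]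
    linarith [hs.2]
  rw [h5, norm_neg, norm_real, sub_zero, Real.norm_of_nonneg hε.le, abs_of_pos hε] at h6
  linarith

lemma core (h : IsSemigroup φ) {z : ℂ} (hz : z ∈ ball (0:ℂ) 1) {t₀ : ℝ} (ht₀ : 0 ≤ t₀) {ε : ℝ}
    (hε : 0 < ε) (hne : deriv (J φ ε) (φ t₀ z) ≠ 0) :
    HasDerivWithinAt (fun t => φ t z)
      ((φ ε (φ t₀ z) - φ t₀ z) / deriv (J φ ε) (φ t₀ z)) (Ici 0) t₀ := by
  set z₁ := φ t₀ z with hz₁
  have hz₁b : z₁ ∈ ball (0:ℂ) 1 := h.mapsTo t₀ ht₀ hz
  have hu : ContinuousWithinAt (fun t => φ t z) (Ici 0) t₀ := sg_cont h hz t₀ ht₀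
  set v : ℝ → ℂ := fun s => φ (max s 0) z with hv
  have hvc : Continuous v := by
    rw [← continuousOn_univ]
    exact (sg_cont h hz).comp (by fun_prop) (fun s _ => le_max_right s 0)
  set V : ℝ → ℂ := fun t => ∫ s in (0:ℝ)..t, v s with hV
  have hVd : ∀ t, HasDerivAt V (v t) t := fun t => (hvc.integral_hasStrictDerivAt 0 t).hasDerivAt
  have hW : HasDerivAt (fun t => V (t + ε) - V t) (φ ε z₁ - z₁) t₀ := by
    have h1 : HasDerivAt (fun t => V (t + ε)) (v (t₀ + ε)) t₀ := by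
      simpa using (hVd (t₀ + ε)).comp_add_const t₀ ε
    have h2 := h1.sub (hVd t₀)
    have e1 : v (t₀ + ε) = φ ε z₁ := by
      rw [hv, hz₁]
      simp only
      rw [max_eq_left (by linarith), add_comm, h.add t₀ ε ht₀ hε.le z hz]
    have e2 : v t₀ = z₁ := by
      rw [hv, hz₁]; simp only; rw [max_eq_left ht₀]
    rwa [e1, e2] at h2
  have hJ : ∀ t ∈ Ici (0:ℝ), J φ ε (φ t z) = V (t + ε) - V t := by
    intro t ht
    have ht' : 0 ≤ t := ht
    have e1 : J φ ε (φ t z) = ∫ s in (0:ℝ)..ε, v (s + t) := by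
      unfold J
      apply intervalIntegral.integral_congr
      intro s hs
      rw [uIcc_of_le hε.le] at hs
      simp only [hv]
      rw [max_eq_left (by linarith [hs.1]), h.add t s ht' hs.1 z hz]
    rw [e1, intervalIntegral.integral_comp_add_right, hV]
    simp only
    rw [eq_sub_iff_add_eq, zero_add, add_comm, add_comm ε t]
    exact intervalIntegral.integral_add_adjacent_intervals (hvc.intervalIntegrable _ _)
      (hvc.intervalIntegrable _ _)
  have hJd : HasDerivWithinAt (fun t => J φ ε (φ t z)) (φ ε z₁ - z₁) (Ici 0) t₀ :=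
    hW.hasDerivWithinAt.congr hJ (hJ t₀ ht₀)
  have hD : ContinuousWithinAt (fun t => dslope (J φ ε) z₁ (φ t z)) (Ici 0) t₀ := by
    have h1 : ContinuousAt (dslope (J φ ε) z₁) z₁ :=
      continuousAt_dslope_same.2 (J_hasDeriv h hε hz₁b).differentiableAt
    exact ContinuousAt.comp_continuousWithinAt (f := fun t => φ t z) (x := t₀) h1 hu
  have hD0 : Tendsto (fun t => dslope (J φ ε) z₁ (φ t z)) (𝓝[Ici 0] t₀)
      (𝓝 (deriv (J φ ε) z₁)) := by
    have := hD.tendsto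
    simp only [← hz₁, dslope_same] at this
    exact this
  rw [hasDerivWithinAt_iff_tendsto_slope] at hJd ⊢
  have hle : 𝓝[Ici 0 \ {t₀}] t₀ ≤ 𝓝[Ici 0] t₀ := nhdsWithin_mono _ sdiff_subset
  have h3 := hJd.div (hD0.mono_left hle) hne
  refine h3.congr' ?_
  have h4 : ∀ᶠ t in 𝓝[Ici 0 \ {t₀}] t₀, dslope (J φ ε) z₁ (φ t z) ≠ 0 :=
    (hD0.mono_left hle).eventually_ne hne
  filter_upwards [h4] with t ht
  have h5 := sub_smul_dslope (J φ ε) z₁ (φ t z)
  simp only [Pi.div_apply, slope_def_module, ← hz₁]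
  rw [← h5, smul_eq_mul, real_smul, real_smul]
  field_simp

/-- the infinitesimal generator. -/
noncomputable def gen (φ : ℝ → ℂ → ℂ) (z : ℂ) : ℂ := derivWithin (fun t => φ t z) (Ici 0) 0

lemma gen_eq (h : IsSemigroup φ) {z : ℂ} (hz : z ∈ ball (0:ℂ) 1) {ε : ℝ}
    (hε : 0 < ε) (hne : deriv (J φ ε) z ≠ 0) :
    gen φ z = (φ ε z - z) / deriv (J φ ε) z := by
  have h0 := h.zero z hz
  have := core h hz le_rfl hε (by rwa [h0])
  rw [h0] at this
  exact this.derivWithin (uniqueDiffOn_Ici 0 0 (Set.mem_Ici.mpr le_rfl))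

lemma gen_hasDeriv (h : IsSemigroup φ) {z : ℂ} (hz : z ∈ ball (0:ℂ) 1) {t₀ : ℝ} (ht₀ : 0 ≤ t₀) :
    HasDerivWithinAt (fun t => φ t z) (gen φ (φ t₀ z)) (Ici 0) t₀ := by
  have hz₁b : φ t₀ z ∈ ball (0:ℂ) 1 := h.mapsTo t₀ ht₀ hz
  obtain ⟨ε, hε, hne⟩ := exists_eps h hz₁b
  rw [gen_eq h hz₁b hε hne]
  exact core h hz ht₀ hε hne

lemma gen_diff (h : IsSemigroup φ) : DifferentiableOn ℂ (gen φ) (ball 0 1) := by
  intro z hz
  obtain ⟨ε, hε, hne⟩ := exists_eps h hz
  have hzn := isOpen_ball.mem_nhds hz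
  have hd : DifferentiableAt ℂ (deriv (J φ ε)) z :=
    ((J_diff h hε).deriv isOpen_ball).differentiableAt hzn
  have h1 : gen φ =ᶠ[𝓝 z] fun w => (φ ε w - w) / deriv (J φ ε) w := by
    filter_upwards [hzn, hd.continuousAt.eventually_ne hne] with w hw hw2
    exact gen_eq h hw hε hw2
  apply DifferentiableAt.differentiableWithinAt
  rw [h1.differentiableAt_iff]
  exact (((h.holo ε hε.le).differentiableAt hzn).sub differentiableAt_id).div hd hne

end Pool.Agent.X19.OS
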