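import Mathlib
import Pool.Agent.X19.OS.Dil
import Pool.Agent.X19.OS.Semi
import Pool.Agent.X19.OS.Jul

open Complex Metric Set Filter Topology ComplexConjugate

namespace Pool.Agent.X19.OS

variable {φ : ℝ → ℂ → ℂ}

lemma cay_re_mono (h : IsSemigroup φ)
    (hτ : ∀ z ∈ ball (0:ℂ) 1, Tendsto (fun t => φ t z) atTop (𝓝 1)) {s : ℝ} (hs : 0 ≤ s)
    {z : ℂ} (hz : z ∈ ball (0:ℂ) 1) : (cay z).re ≤ (cay (φ s z)).re := by
  have h1 := julia h hτ hs hz
  have hz' : ‖z‖ < 1 := by simpa using hz
  have hf : ‖φ s z‖ < 1 := by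
    have := h.mapsTo s hs hz; rwa [mem_ball_zero_iff] at this
  rw [cay_re, cay_re, div_le_div_iff₀ (normSq_pos.mpr (one_sub_ne hz'))
    (normSq_pos.mpr (one_sub_ne hf))]
  exact h1

lemma cay_flow (h : IsSemigroup φ) {z : ℂ} (hz : z ∈ ball (0:ℂ) 1) {t : ℝ} (ht : 0 ≤ t) :
    HasDerivWithinAt (fun t => cay (φ t z)) (cayd (φ t z) * gen φ (φ t z)) (Ici 0) t := by
  have hf : ‖φ t z‖ < 1 := by
    have := h.mapsTo t ht hz; rwa [mem_ball_zero_iff] at this
  exact (hasDerivAt_cay hf).comp_hasDerivWithinAt t (gen_hasDeriv h hz ht)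

lemma re_deriv {f : ℝ → ℂ} {f' : ℂ} {s : Set ℝ} {t : ℝ} (hf : HasDerivWithinAt f f' s t) :
    HasDerivWithinAt (fun t => (f t).re) f'.re s t :=
  Complex.reCLM.hasFDerivAt.comp_hasDerivWithinAt t hf

lemma im_deriv {f : ℝ → ℂ} {f' : ℂ} {s : Set ℝ} {t : ℝ} (hf : HasDerivWithinAt f f' s t) :
    HasDerivWithinAt (fun t => (f t).im) f'.im s t :=
  Complex.imCLM.hasFDerivAt.comp_hasDerivWithinAt t hf

lemma G_re_nonneg (h : IsSemigroup φ)
    (hτ : ∀ z ∈ ball (0:ℂ) 1, Tendsto (fun t => φ t z) atTop (𝓝 1))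
    {z : ℂ} (hz : z ∈ ball (0:ℂ) 1) : 0 ≤ (cayd z * gen φ z).re := by
  have h1 := re_deriv (cay_flow h hz le_rfl)
  rw [h.zero z hz, hasDerivWithinAt_iff_tendsto_slope, Ici_sdiff_left] at h1
  refine ge_of_tendsto h1 ?_
  filter_upwards [self_mem_nhdsWithin] with t ht
  have ht' : (0:ℝ) < t := ht
  rw [slope_def_field, h.zero z hz]
  have := cay_re_mono h hτ ht'.le hz
  apply div_nonneg <;> linarith

theorem mono_one (h : IsSemigroup φ)
    (hτ : ∀ z ∈ ball (0:ℂ) 1, Tendsto (fun t => φ t z) atTop (𝓝 1)) :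
    MonotoneOn (fun t => normSq (cay (φ t 0))) (Ici 0) := by
  have h0b : (0:ℂ) ∈ ball (0:ℂ) 1 := mem_ball_self one_pos
  set G : ℂ → ℂ := fun z => cayd z * gen φ z with hG
  have hcd : DifferentiableOn ℂ cayd (ball 0 1) := by
    unfold cayd
    apply DifferentiableOn.div (by fun_prop) (by fun_prop)
    intro w hw
    exact pow_ne_zero _ (one_sub_ne (by simpa using hw))
  have hGd : DifferentiableOn ℂ G (ball 0 1) := hcd.mul (gen_diff h)
  have hGre : ∀ z ∈ ball (0:ℂ) 1, 0 ≤ (G z).re := fun z hz => G_re_nonneg h hτ hz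
  set f : ℝ → ℂ := fun t => cay (φ t 0) with hf
  have hfd : ∀ t, 0 ≤ t → HasDerivWithinAt f (G (φ t 0)) (Ici 0) t := fun t ht =>
    cay_flow h h0b ht
  have hf0 : f 0 = 1 := by rw [hf]; simp only; rw [h.zero 0 h0b, cay_zero]
  have hnd : ∀ t, 0 ≤ t → HasDerivWithinAt (fun t => normSq (f t))
      (2 * ((f t).re * (G (φ t 0)).re + (f t).im * (G (φ t 0)).im)) (Ici 0) t := by
    intro t ht
    have h1 := (re_deriv (hfd t ht)).pow 2
    have h2 := (im_deriv (hfd t ht)).pow 2
    have h3 := h1.add h2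
    refine (h3.congr (f₁ := fun t => normSq (f t)) ?_ ?_).congr_deriv ?_
    · intro s _; rw [normSq_apply]; simp only [Pi.add_apply, Pi.pow_apply]; ring
    · rw [normSq_apply]; simp only [Pi.add_apply, Pi.pow_apply]; ring
    · push_cast; ring
  have hcont : ContinuousOn (fun t => normSq (f t)) (Ici 0) := fun t ht =>
    (hnd t ht).continuousWithinAt
  suffices hsuff : ∀ t, 0 < t → 0 ≤ (f t).re * (G (φ t 0)).re + (f t).im * (G (φ t 0)).im by
    apply monotoneOn_of_deriv_nonneg (convex_Ici 0) hcont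
    · intro t ht
      rw [interior_Ici] at ht ⊢
      have ht' : (0:ℝ) < t := ht
      exact ((hnd t ht'.le).hasDerivAt (Ici_mem_nhds ht')).differentiableAt.differentiableWithinAt
    · intro t ht
      rw [interior_Ici] at ht
      have ht' : (0:ℝ) < t := ht
      rw [((hnd t ht'.le).hasDerivAt (Ici_mem_nhds ht')).deriv]
      have := hsuff t ht'
      linarith
  have hGa : AnalyticOnNhd ℂ G (ball 0 1) := hGd.analyticOnNhd isOpen_ball
  rcases hGa.is_constant_or_isOpen (convex_ball (0:ℂ) 1).isPreconnected with ⟨k, hk⟩ | hopen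
  · -- constant
    have hkre : 0 ≤ k.re := by rw [← hk 0 h0b]; exact hGre 0 h0b
    have hft : ∀ t, 0 ≤ t → f t = 1 + k * t := by
      intro t ht
      have h1 : ∀ x ∈ Icc (0:ℝ) t, (f x - k * x) = (f 0 - k * (0:ℝ)) := by
        apply constant_of_has_deriv_right_zero (f := fun x : ℝ => f x - k * x)
        · intro x hx
          have := (hfd x hx.1).continuousWithinAt
          refine (this.mono Icc_subset_Ici_self).sub ?_
          exact Continuous.continuousWithinAt (by fun_prop)
        · intro x hx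
          have h2 := (hfd x hx.1).mono (Ici_subset_Ici.mpr hx.1)
          have h3 : HasDerivAt (fun x : ℝ => k * (x:ℂ)) k x := by
            simpa using (Complex.ofRealCLM.hasDerivAt (x := x)).const_mul k
          have h4 := h2.sub h3.hasDerivWithinAt (s := Ici x)
          rw [hk _ (h.mapsTo x hx.1 h0b), sub_self] at h4
          exact h4
      have h5 := h1 t ⟨ht, le_rfl⟩
      rw [hf0] at h5
      have : f t = (f t - k * t) + k * t := by ring
      rw [this, h5]; simp
    intro t ht
    rw [hft t ht.le, hk _ (h.mapsTo t ht.le h0b)]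
    simp only [add_re, one_re, mul_re, ofReal_re, ofReal_im, mul_zero, sub_zero, add_im, one_im,
      zero_add, mul_im]
    have : 0 ≤ k.re * t := by positivity
    nlinarith [sq_nonneg k.im, sq_nonneg k.re, mul_nonneg this hkre, mul_nonneg (sq_nonneg k.im) ht.le]
  · have hGpos : ∀ z ∈ ball (0:ℂ) 1, 0 < (G z).re := by
      intro z hz
      have h1 := hopen (ball 0 1) Subset.rfl isOpen_ball
      have h2 : G z ∈ G '' ball 0 1 := mem_image_of_mem _ hz
      rw [Metric.isOpen_iff] at h1
      obtain ⟨δ, hδ, h3⟩ := h1 _ h2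
      have h4 : G z - (δ / 2 : ℝ) ∈ ball (G z) δ := by
        rw [mem_ball, dist_eq_norm]
        have : G z - (δ / 2 : ℝ) - G z = -((δ / 2 : ℝ) : ℂ) := by ring
        rw [this, norm_neg, norm_real, Real.norm_of_nonneg (by positivity)]
        linarith
      obtain ⟨y, hy, hy2⟩ := h3 h4
      have h5 := hGre y hy
      rw [hy2, sub_re, ofReal_re] at h5
      linarith
    have hGne : ∀ z ∈ ball (0:ℂ) 1, G z ≠ 0 := by
      intro z hz h1
      have := hGpos z hz
      rw [h1] at this; simp at this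
    set P : ℂ → ℂ := fun z => (G z)⁻¹ with hP
    have hPd : DifferentiableOn ℂ P (ball 0 1) := hGd.inv hGne
    have hPre : ∀ z ∈ ball (0:ℂ) 1, 0 ≤ (P z).re := by
      intro z hz
      rw [hP]; simp only
      rw [inv_re]
      exact div_nonneg (hGpos z hz).le (normSq_nonneg _)
    obtain ⟨H, hH⟩ := (hPd.mul hcd).isExactOn_ball
    have hHt : ∀ t, 0 ≤ t → H (φ t 0) = H 0 + t := by
      intro t ht
      have h1 : ∀ x ∈ Icc (0:ℝ) t, (H (φ x 0) - x) = (H (φ 0 0) - (0:ℝ)) := by
        have hd : ∀ x, 0 ≤ x → HasDerivWithinAt (fun x : ℝ => H (φ x 0) - (x:ℂ)) 0 (Ici 0) x := by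
          intro x hx
          have hxb := h.mapsTo x hx h0b
          have h2 := (hH _ hxb).comp_hasDerivWithinAt x (gen_hasDeriv h h0b hx)
          have h3 : HasDerivAt (fun x : ℝ => (x:ℂ)) 1 x := Complex.ofRealCLM.hasDerivAt
          have h4 := h2.sub h3.hasDerivWithinAt
          refine h4.congr_deriv ?_
          simp only [Pi.mul_apply, hP, hG]
          have h5 : cayd (φ x 0) * gen φ (φ x 0) ≠ 0 := hGne _ hxb
          rw [mul_assoc, inv_mul_cancel₀ h5, sub_self]
        apply constant_of_has_deriv_right_zero (f := fun x : ℝ => H (φ x 0) - (x:ℂ))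
        · intro x hx
          exact (hd x hx.1).continuousWithinAt.mono Icc_subset_Ici_self
        · intro x hx
          exact (hd x hx.1).mono (Ici_subset_Ici.mpr hx.1)
      have h5 := h1 t ⟨ht, le_rfl⟩
      rw [h.zero 0 h0b] at h5
      simp only [ofReal_zero, sub_zero] at h5
      rw [← h5]; ring
    have hxmono : StrictMonoOn (fun t => (f t).re) (Ici 0) := by
      apply strictMonoOn_of_deriv_pos (convex_Ici 0)
      · intro t ht
        exact (re_deriv (hfd t ht)).continuousWithinAt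
      · intro t ht
        rw [interior_Ici] at ht
        have ht' : (0:ℝ) < t := ht
        rw [((re_deriv (hfd t ht'.le)).hasDerivAt (Ici_mem_nhds ht')).deriv]
        exact hGpos _ (h.mapsTo t ht'.le h0b)
    intro t ht
    have htb := h.mapsTo t ht.le h0b
    have htn : ‖φ t 0‖ < 1 := by rwa [mem_ball_zero_iff] at htb
    have hx : 1 < (cay (φ t 0)).re := by
      have := hxmono (mem_Ici.mpr le_rfl) (mem_Ici.mpr ht.le) ht
      simp only at this
      rw [hf0, one_re] at this
      exact this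
    have hL := LF_nonneg hPd hPre htn hx
    have hKI : KI P (φ t 0) = t := by
      rw [KI_eq hPd.continuousOn (fun w hw => hH w hw) htn, hHt t ht.le]; ring
    unfold LF at hL
    rw [hKI, ofReal_im, mul_zero, add_zero] at hL
    have h6 : 0 ≤ (cay (φ t 0) * P (φ t 0)).re := by
      by_contra hcon
      push Not at hcon
      nlinarith
    have h7 : (cay (φ t 0) * P (φ t 0)).re
        = ((f t).re * (G (φ t 0)).re + (f t).im * (G (φ t 0)).im) / normSq (G (φ t 0)) := by
      rw [hP, hf]; simp only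
      rw [mul_re, inv_re, inv_im]
      ring
    rw [h7] at h6
    have h8 : 0 < normSq (G (φ t 0)) := normSq_pos.mpr (hGne _ htb)
    by_contra hcon
    push Not at hcon
    have := div_neg_of_neg_of_pos hcon h8
    linarith

end Pool.Agent.X19.OS
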