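import Mathlib
import Pool.Agent.X19.OS.Mono

open Complex Metric Set Filter Topology ComplexConjugate
open Pool.Agent.H5R3 (T norm_T_lt normSq_identity)

namespace Pool.Agent.X19.OS

lemma denom_formula {w : ℂ} (hw : ‖w‖ < 1) {r : ℝ} (hr : -1 < r) (hr1 : r < 1) :
    (1 + r) / (1 - r) + normSq (cay w) * ((1 - r) / (1 + r)) + 2 * (cay w).re
      = 4 * normSq (1 - r * w) / ((1 - r ^ 2) * normSq (1 - w)) := by
  have h1 : normSq (1 - w) ≠ 0 := (normSq_pos.mpr (one_sub_ne hw)).ne'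
  have h2 : 1 - r ≠ 0 := by linarith
  have h3 : 1 + r ≠ 0 := by linarith
  have h4 : 1 - r ^ 2 ≠ 0 := by
    have : 1 - r ^ 2 = (1 - r) * (1 + r) := by ring
    rw [this]; exact mul_ne_zero h2 h3
  rw [cay_re]
  unfold cay
  rw [map_div₀]
  have e1 : normSq (1 + w) = (1 + w.re) ^ 2 + w.im ^ 2 := by
    rw [normSq_apply]; simp; ring
  have e2 : normSq (1 - w) = (1 - w.re) ^ 2 + w.im ^ 2 := by
    rw [normSq_apply]; simp; ring
  have e3 : normSq w = w.re ^ 2 + w.im ^ 2 := by rw [normSq_apply]; ring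
  have e4 : normSq (1 - r * w) = (1 - r * w.re) ^ 2 + (r * w.im) ^ 2 := by
    rw [normSq_apply]; simp; ring
  rw [e2] at h1
  rw [e1, e2, e3, e4]
  field_simp
  ring

lemma dist_formula {w : ℂ} (hw : ‖w‖ < 1) {r : ℝ} (hr : -1 < r) (hr1 : r < 1) :
    normSq ((w - r) / (1 - r * w)) = 1 - 4 * (cay w).re /
      ((1 + r) / (1 - r) + normSq (cay w) * ((1 - r) / (1 + r)) + 2 * (cay w).re) := by
  have hrn : ‖(r:ℂ)‖ < 1 := by rw [norm_real, Real.norm_eq_abs, abs_lt]; exact ⟨hr, hr1⟩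
  have h0 := Pool.Agent.H5R3.one_sub_ne hrn hw
  rw [conj_ofReal] at h0
  have h5 : normSq (1 - r * w) ≠ 0 := (normSq_pos.mpr h0).ne'
  have hid := normSq_identity (r:ℂ) w
  rw [conj_ofReal, normSq_ofReal] at hid
  have h1 : normSq (1 - w) ≠ 0 := (normSq_pos.mpr (one_sub_ne hw)).ne'
  have h4 : 1 - r ^ 2 ≠ 0 := by nlinarith
  rw [denom_formula hw hr hr1, cay_re, map_div₀]
  generalize normSq (1 - r * w) = Q at *
  generalize normSq (w - r) = N at *
  generalize normSq (1 - w) = M at *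
  generalize normSq w = K at *
  have e : 4 * ((1 - K) / M) / (4 * Q / ((1 - r ^ 2) * M)) = (1 - r ^ 2) * (1 - K) / Q := by
    field_simp
  rw [e, eq_sub_iff_add_eq, ← add_div, div_eq_one_iff_eq h5]
  linarith

lemma gle {d e : ℝ} (hd0 : 0 ≤ d) (hd : d < 1) (he0 : 0 ≤ e) (he : e < 1) :
    1 / 2 * Real.log ((1 + d) / (1 - d)) ≤ 1 / 2 * Real.log ((1 + e) / (1 - e)) ↔ d ≤ e := by
  have h1 : 0 < (1 + d) / (1 - d) := div_pos (by linarith) (by linarith)
  have h2 : 0 < (1 + e) / (1 - e) := div_pos (by linarith) (by linarith)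
  rw [mul_le_mul_iff_right₀ (by norm_num : (0:ℝ) < 1 / 2), Real.log_le_log_iff h1 h2,
    div_le_div_iff₀ (by linarith) (by linarith)]
  constructor <;> intro h <;> nlinarith

/-- the pseudo-hyperbolic distance from `z` to the point `r τ`, in rotated coordinates. -/
lemma pd_eq {τ z : ℂ} (hτ : ‖τ‖ = 1) (r : ℝ) :
    ‖(z - r * τ) / (1 - conj (r * τ) * z)‖ = ‖(conj τ * z - r) / (1 - r * (conj τ * z))‖ := by
  have h1 : τ * conj τ = 1 := by
    rw [mul_conj, normSq_eq_norm_sq, hτ]; simp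
  have e1 : z - r * τ = τ * (conj τ * z - r) := by linear_combination -z * h1
  have e2 : 1 - conj (r * τ) * z = 1 - r * (conj τ * z) := by
    rw [map_mul, conj_ofReal]; ring
  rw [e2, norm_div, norm_div, e1, norm_mul, hτ, one_mul]

/-- the closest point parameter. -/
noncomputable def rs (w : ℂ) : ℝ := (‖cay w‖ - 1) / (‖cay w‖ + 1)

lemma norm_cay_pos {w : ℂ} (hw : ‖w‖ < 1) : 0 < ‖cay w‖ := by
  rw [norm_pos_iff]
  intro h
  have := cay_re_pos hw
  rw [h] at this; simp at this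

lemma rs_mem {w : ℂ} (hw : ‖w‖ < 1) : -1 < rs w ∧ rs w < 1 := by
  have h := norm_cay_pos hw
  unfold rs
  constructor
  · rw [lt_div_iff₀ (by linarith)]; linarith
  · rw [div_lt_one (by linarith)]; linarith

lemma rs_eq {w : ℂ} (hw : ‖w‖ < 1) : (1 + rs w) / (1 - rs w) = ‖cay w‖ := by
  have h := norm_cay_pos hw
  unfold rs
  have h2 : ‖cay w‖ + 1 ≠ 0 := by linarith
  field_simp
  ring

lemma pd_lt_one {w : ℂ} (hw : ‖w‖ < 1) {r : ℝ} (hr : -1 < r) (hr1 : r < 1) :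
    ‖(w - r) / (1 - r * w)‖ < 1 := by
  have hrn : ‖(r:ℂ)‖ < 1 := by rw [norm_real, Real.norm_eq_abs, abs_lt]; exact ⟨hr, hr1⟩
  have := norm_T_lt hrn hw
  unfold T at this
  rwa [conj_ofReal] at this

/-- comparison of distances. -/
lemma pd_le_iff {w : ℂ} (hw : ‖w‖ < 1) {r : ℝ} (hr : -1 < r) (hr1 : r < 1) :
    ‖(w - rs w) / (1 - rs w * w)‖ ≤ ‖(w - r) / (1 - r * w)‖ ∧
    (‖(w - r) / (1 - r * w)‖ ≤ ‖(w - rs w) / (1 - rs w * w)‖ → r = rs w) := by
  have hρ := norm_cay_pos hw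
  have hX := cay_re_pos hw
  obtain ⟨hs, hs1⟩ := rs_mem hw
  have f1 := dist_formula hw hr hr1
  have f2 := dist_formula hw hs hs1
  have ha : 0 < (1 + r) / (1 - r) := div_pos (by linarith) (by linarith)
  set a := (1 + r) / (1 - r) with hadef
  have hinv : (1 - r) / (1 + r) = a⁻¹ := by rw [hadef, inv_div]
  have hinv2 : (1 - rs w) / (1 + rs w) = ‖cay w‖⁻¹ := by rw [← rs_eq hw, inv_div]
  rw [hinv, normSq_eq_norm_sq (cay w)] at f1
  rw [hinv2, rs_eq hw, normSq_eq_norm_sq (cay w)] at f2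
  set ρ := ‖cay w‖ with hρdef
  set X := (cay w).re with hXdef
  have e2 : ρ ^ 2 * ρ⁻¹ = ρ := by field_simp
  rw [e2] at f2
  have hA : ρ + ρ ≤ a + ρ ^ 2 * a⁻¹ := by
    have : a + ρ ^ 2 * a⁻¹ - (ρ + ρ) = (a - ρ) ^ 2 * a⁻¹ := by field_simp; ring
    have h2 : 0 ≤ (a - ρ) ^ 2 * a⁻¹ := by positivity
    linarith
  have hpos2 : 0 < ρ + ρ + 2 * X := by positivity
  have hpos1 : 0 < a + ρ ^ 2 * a⁻¹ + 2 * X := by linarith
  constructor
  · have h1 : normSq ((w - rs w) / (1 - rs w * w)) ≤ normSq ((w - r) / (1 - r * w)) := by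
      rw [f1, f2]
      have : 4 * X / (a + ρ ^ 2 * a⁻¹ + 2 * X) ≤ 4 * X / (ρ + ρ + 2 * X) := by
        apply div_le_div_of_nonneg_left (by positivity) hpos2; linarith
      linarith
    rw [normSq_eq_norm_sq, normSq_eq_norm_sq] at h1
    exact le_of_sq_le_sq h1 (norm_nonneg _)
  · intro hle
    have h1 : normSq ((w - r) / (1 - r * w)) ≤ normSq ((w - rs w) / (1 - rs w * w)) := by
      rw [normSq_eq_norm_sq, normSq_eq_norm_sq]
      gcongr
    rw [f1, f2] at h1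
    have h2 : 4 * X / (ρ + ρ + 2 * X) ≤ 4 * X / (a + ρ ^ 2 * a⁻¹ + 2 * X) := by linarith
    rw [div_le_div_iff_of_pos_left (by positivity) hpos2 hpos1] at h2
    have h3 : (a - ρ) ^ 2 * a⁻¹ ≤ 0 := by
      have : a + ρ ^ 2 * a⁻¹ - (ρ + ρ) = (a - ρ) ^ 2 * a⁻¹ := by field_simp; ring
      linarith
    have h4 : (a - ρ) ^ 2 = 0 := by
      have h5 : 0 < a⁻¹ := by positivity
      have h6 : (a - ρ) ^ 2 ≤ 0 := by
        by_contra hc
        push Not at hc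
        nlinarith [mul_pos hc h5]
      linarith [sq_nonneg (a - ρ)]
    have h7 : a = ρ := by
      have := pow_eq_zero_iff (two_ne_zero) |>.mp h4
      linarith
    have h8 : (1 + r) = ρ * (1 - r) := by
      rw [← h7, hadef, div_mul_cancel₀ _ (by linarith)]
    unfold rs
    rw [← hρdef, eq_div_iff (by linarith)]
    linarith

lemma proj_spec {τ z : ℂ} (hτ : ‖τ‖ = 1) (hz : ‖z‖ < 1) (p : ℂ) :
    IsProj τ z p ↔ p = (rs (conj τ * z) : ℝ) * τ := by
  set w := conj τ * z with hw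
  have hwn : ‖w‖ < 1 := by rw [hw, norm_mul, RCLike.norm_conj, hτ, one_mul]; exact hz
  obtain ⟨hs, hs1⟩ := rs_mem hwn
  have hk : ∀ r : ℝ, kD z (r * τ) = 1 / 2 * Real.log ((1 + ‖(w - r) / (1 - r * w)‖) /
      (1 - ‖(w - r) / (1 - r * w)‖)) := by
    intro r
    unfold kD
    rw [pd_eq hτ r]
  constructor
  · rintro ⟨⟨r, hr, hr1, rfl⟩, h2⟩
    have h3 := h2 ((rs w : ℝ) * τ) ⟨rs w, hs, hs1, rfl⟩
    rw [hk, hk, gle (norm_nonneg _) (pd_lt_one hwn hr hr1) (norm_nonneg _)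
      (pd_lt_one hwn hs hs1)] at h3
    rw [(pd_le_iff hwn hr hr1).2 h3]
  · rintro rfl
    refine ⟨⟨rs w, hs, hs1, rfl⟩, ?_⟩
    rintro q ⟨r, hr, hr1, rfl⟩
    rw [hk, hk, gle (norm_nonneg _) (pd_lt_one hwn hs hs1) (norm_nonneg _)
      (pd_lt_one hwn hr hr1)]
    exact (pd_le_iff hwn hr hr1).1

lemma kD_zero {τ w : ℂ} (hτ : ‖τ‖ = 1) (hw : ‖w‖ < 1) (h1 : 1 ≤ ‖cay w‖) :
    kD 0 ((rs w : ℝ) * τ) = 1 / 2 * Real.log ‖cay w‖ := by
  unfold kD
  have hr0 : 0 ≤ rs w := by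
    unfold rs; apply div_nonneg <;> linarith
  have : ‖(0 - (rs w : ℝ) * τ) / (1 - conj ((rs w : ℝ) * τ) * 0)‖ = rs w := by
    rw [mul_zero, sub_zero, div_one, zero_sub, norm_neg, norm_mul, hτ, mul_one, norm_real,
      Real.norm_of_nonneg hr0]
  rw [this, rs_eq hw]

variable {φ : ℝ → ℂ → ℂ}

lemma rot_semigroup (h : IsSemigroup φ) {τ : ℂ} (hτ : ‖τ‖ = 1) :
    IsSemigroup (fun t z => conj τ * φ t (τ * z)) := by
  have h1 : τ * conj τ = 1 := by
    rw [mul_conj, normSq_eq_norm_sq, hτ]; simp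
  have hcn : ‖conj τ‖ = 1 := by rw [RCLike.norm_conj, hτ]
  have hm : MapsTo (fun z => τ * z) (ball (0:ℂ) 1) (ball 0 1) := by
    intro z hz
    rw [mem_ball_zero_iff] at hz ⊢
    rw [norm_mul, hτ, one_mul]; exact hz
  have hm2 : MapsTo (fun z => conj τ * z) (ball (0:ℂ) 1) (ball 0 1) := by
    intro z hz
    rw [mem_ball_zero_iff] at hz ⊢
    rw [norm_mul, hcn, one_mul]; exact hz
  refine ⟨fun t ht => ?_, fun t ht => ?_, fun z hz => ?_, fun s t hs ht z hz => ?_,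
    fun t₀ ht₀ => ?_⟩
  · exact hm2.comp ((h.mapsTo t ht).comp hm)
  · exact ((h.holo t ht).comp (by fun_prop) hm).const_mul _
  · rw [h.zero _ (hm hz)]
    linear_combination z * h1
  · rw [h.add s t hs ht _ (hm hz)]
    congr 2
    linear_combination -(φ s (τ * z)) * h1
  · have h2 := (h.cont t₀ ht₀).comp (fun z => τ * z) hm (by fun_prop)
    have h3 : UniformContinuous (fun w : ℂ => conj τ * w) :=
      (LipschitzWith.of_dist_le_mul (K := 1) fun x y => by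
        rw [dist_eq_norm, dist_eq_norm, ← mul_sub, norm_mul, hcn]; simp).uniformContinuous
    exact h3.comp_tendstoLocallyUniformlyOn h2

lemma rot_dw {τ : ℂ} (hτ : IsDW φ τ) :
    ∀ z ∈ ball (0:ℂ) 1, Tendsto (fun t => conj τ * φ t (τ * z)) atTop (𝓝 1) := by
  intro z hz
  have h1 : conj τ * τ = 1 := by
    rw [mul_comm, mul_conj, normSq_eq_norm_sq, hτ.1]; simp
  have hm : τ * z ∈ ball (0:ℂ) 1 := by
    rw [mem_ball_zero_iff] at hz ⊢
    rw [norm_mul, hτ.1, one_mul]; exact hz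
  have := (hτ.2 _ hm).const_mul (conj τ)
  rwa [h1] at this

theorem rho_mono (h : IsSemigroup φ) {τ : ℂ} (hτ : IsDW φ τ) :
    MonotoneOn (fun t => ‖cay (conj τ * φ t 0)‖) (Ici 0) := by
  have h1 := mono_one (rot_semigroup h hτ.1) (rot_dw hτ)
  intro s hs t ht hst
  have h2 := h1 hs ht hst
  simp only [mul_zero] at h2
  rw [normSq_eq_norm_sq, normSq_eq_norm_sq] at h2
  exact le_of_sq_le_sq h2 (norm_nonneg _)

theorem main (h : IsSemigroup φ) {τ : ℂ} (hτ : IsDW φ τ) :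
    (∀ z ∈ ball (0:ℂ) 1, ∃! p, IsProj τ z p) ∧
    (∀ π : ℂ → ℂ, (∀ z ∈ ball (0:ℂ) 1, IsProj τ z (π z)) →
      MonotoneOn (fun t => kD 0 (π (φ t 0))) (Ici 0)) ∧
    MonotoneOn (fun t => ‖cay (conj τ * φ t 0)‖) (Ici 0) := by
  have hmono := rho_mono h hτ
  refine ⟨fun z hz => ?_, fun π hπ => ?_, hmono⟩
  · have hz' : ‖z‖ < 1 := by simpa using hz
    exact ⟨_, (proj_spec hτ.1 hz' _).mpr rfl, fun q hq => (proj_spec hτ.1 hz' q).mp hq⟩
  · have h0b : (0:ℂ) ∈ ball (0:ℂ) 1 := mem_ball_self one_pos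
    have hb : ∀ t, 0 ≤ t → ‖φ t 0‖ < 1 := fun t ht => by
      have := h.mapsTo t ht h0b; rwa [mem_ball_zero_iff] at this
    have hw : ∀ t, 0 ≤ t → ‖conj τ * φ t 0‖ < 1 := fun t ht => by
      rw [norm_mul, RCLike.norm_conj, hτ.1, one_mul]; exact hb t ht
    have hge : ∀ t, 0 ≤ t → 1 ≤ ‖cay (conj τ * φ t 0)‖ := by
      intro t ht
      have := hmono (mem_Ici.mpr le_rfl) (mem_Ici.mpr ht) ht
      simp only [h.zero 0 h0b, mul_zero, cay_zero, norm_one] at this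
      exact this
    have hval : ∀ t, 0 ≤ t → kD 0 (π (φ t 0)) = 1 / 2 * Real.log ‖cay (conj τ * φ t 0)‖ := by
      intro t ht
      have h1 := (proj_spec hτ.1 (hb t ht) _).mp (hπ _ (h.mapsTo t ht h0b))
      rw [h1, kD_zero hτ.1 (hw t ht) (hge t ht)]
    intro s hs t ht hst
    have hs' : (0:ℝ) ≤ s := hs
    have ht' : (0:ℝ) ≤ t := ht
    simp only
    rw [hval s hs', hval t ht']
    have h3 := hmono hs ht hst
    simp only at h3
    have h4 : 0 < ‖cay (conj τ * φ s 0)‖ := by linarith [hge s hs']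
    have := Real.log_le_log h4 h3
    linarith

end Pool.Agent.X19.OS
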